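import Pool.Agent.PTree.Basic

/-!
# The width of a perfect tree
-/

set_option autoImplicit false

namespace Pool.Agent.PTree

open MeasureTheory Filter Topology

/-- The strings of length `l` in `S` which extend `σ`. -/
def above (S : StrSet) (σ : List Bool) (l : ℕ) : Finset (List Bool) :=
  (strs l).filter fun τ => S τ = true ∧ σ <+: τ

theorem mem_above {S : StrSet} {σ τ : List Bool} {l : ℕ} :
    τ ∈ above S σ l ↔ τ.length = l ∧ S τ = true ∧ σ <+: τ := by
  simp [above]

theorem Perfect.extend {S : StrSet} (hS : Perfect S) {σ : List Bool} (hσ : S σ = true) (l : ℕ) :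
    ∃ τ, σ <+: τ ∧ S τ = true ∧ l ≤ τ.length := by
  induction l with
  | zero => exact ⟨σ, List.prefix_rfl, hσ, Nat.zero_le _⟩
  | succ l ih =>
    obtain ⟨τ, h1, h2, h3⟩ := ih
    obtain ⟨τ₁, τ₂, h4, h5, h6, h7, h8, h9⟩ := hS.2.2 τ h2
    by_cases h10 : τ₁.length = τ.length
    · exfalso
      have h11 : τ = τ₁ := h4.eq_of_length h10.symm
      subst h11
      exact h8 h5
    · exact ⟨τ₁, h1.trans h4, h6, by have := h4.length_le; omega⟩

theorem Perfect.exists_length {S : StrSet} (hS : Perfect S) {σ : List Bool} (hσ : S σ = true)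
    {l : ℕ} (hl : σ.length ≤ l) : (above S σ l).Nonempty := by
  obtain ⟨τ, h1, h2, h3⟩ := hS.extend hσ l
  refine ⟨τ.take l, mem_above.2 ⟨by simp [h3], hS.1 _ τ (List.take_prefix _ _) h2, ?_⟩⟩
  rw [List.prefix_iff_eq_take] at h1
  rw [h1, show List.take σ.length τ = List.take σ.length (List.take l τ) by
    rw [List.take_take, min_eq_left hl]]
  exact List.take_prefix _ _

theorem Perfect.width {S : StrSet} (hS : Perfect S) (N : ℕ) {σ : List Bool} (hσ : S σ = true) :
    ∃ L, ∀ l, L ≤ l → N ≤ (above S σ l).card := by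
  induction N generalizing σ with
  | zero => exact ⟨0, fun _ _ => Nat.zero_le _⟩
  | succ N ih =>
    obtain ⟨τ₁, τ₂, h4, h5, h6, h7, h8, h9⟩ := hS.2.2 σ hσ
    obtain ⟨L₁, hL₁⟩ := ih h6
    refine ⟨max L₁ (max τ₂.length τ₁.length), fun l hl => ?_⟩
    have h1 := hL₁ l (le_trans (le_max_left _ _) hl)
    have hl2 : τ₂.length ≤ l := le_trans (le_trans (le_max_left _ _) (le_max_right _ _)) hl
    have hl1 : τ₁.length ≤ l := le_trans (le_trans (le_max_right _ _) (le_max_right _ _)) hl
    have h2 : 1 ≤ (above S τ₂ l).card := Finset.card_pos.2 (hS.exists_length h7 hl2)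
    have h3 : Disjoint (above S τ₁ l) (above S τ₂ l) := by
      rw [Finset.disjoint_left]
      intro τ ht ht'
      have h10 := (mem_above.1 ht).2.2
      have h11 := (mem_above.1 ht').2.2
      rcases List.prefix_or_prefix_of_prefix h10 h11 with h | h
      · exact h8 h
      · exact h9 h
    have h12 : above S τ₁ l ∪ above S τ₂ l ⊆ above S σ l := by
      intro τ ht
      rcases Finset.mem_union.1 ht with ht | ht
      · have := mem_above.1 ht
        exact mem_above.2 ⟨this.1, this.2.1, h4.trans this.2.2⟩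
      · have := mem_above.1 ht
        exact mem_above.2 ⟨this.1, this.2.1, h5.trans this.2.2⟩
    have h13 := Finset.card_le_card h12
    rw [Finset.card_union_of_disjoint h3] at h13
    omega

theorem Perfect.nil {S : StrSet} (hS : Perfect S) : S [] = true := by
  obtain ⟨σ, hσ⟩ := hS.2.1
  exact hS.1 [] σ List.nil_prefix hσ

end Pool.Agent.PTree
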