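import Pool.Agent.PTree.Hull

/-!
# Killing a string, and continuity
-/

set_option autoImplicit false

namespace Pool.Agent.PTree

open MeasureTheory Filter Topology

/-- Remove from `T` the strings of length at least `m` which extend `τ`. -/
def kill (T : StrSet) (τ : List Bool) (m : ℕ) : StrSet :=
  fun σ => T σ && !(decide (τ <+: σ ∧ m ≤ σ.length))

theorem kill_iff {T : StrSet} {τ σ : List Bool} {m : ℕ} :
    kill T τ m σ = true ↔ T σ = true ∧ ¬ (τ <+: σ ∧ m ≤ σ.length) := by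
  simp only [kill, Bool.and_eq_true, Bool.not_eq_true', decide_eq_false_iff_not]

theorem kill_sub (T : StrSet) (τ : List Bool) (m : ℕ) : Sub (kill T τ m) T :=
  fun _ h => (kill_iff.1 h).1

theorem kill_agree (T : StrSet) (τ : List Bool) (m : ℕ) : Agree m T (kill T τ m) := by
  intro σ hσ
  have h1 : ¬ (τ <+: σ ∧ m ≤ σ.length) := fun h => absurd h.2 (not_le.2 hσ)
  have h2 : kill T τ m σ = true ↔ T σ = true := by
    rw [kill_iff]
    exact ⟨fun h => h.1, fun h => ⟨h, h1⟩⟩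
  rcases Bool.eq_false_or_eq_true (T σ) with h | h
  · rw [h]; exact h2.2 h
  · rw [h]
    by_contra h3
    rw [Bool.not_eq_false] at h3
    rw [h2, h] at h3
    exact absurd h3 (by simp)

theorem kill_tree {T : StrSet} (hT : IsTree T) (τ : List Bool) (m : ℕ) :
    IsTree (kill T τ m) := by
  intro σ ρ hσρ hρ
  rw [kill_iff] at hρ ⊢
  exact ⟨hT σ ρ hσρ hρ.1, fun h => hρ.2 ⟨h.1.trans hσρ, h.2.trans hσρ.length_le⟩⟩

theorem kill_dead {T T' : StrSet} {τ ρ : List Bool} {m : ℕ} (h : Sub T' (kill T τ m))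
    (hρ : τ <+: ρ) (hm : m ≤ ρ.length) : T' ρ ≠ true :=
  fun h1 => (kill_iff.1 (h _ h1)).2 ⟨hρ, hm⟩

theorem kill_M (T : StrSet) (τ : List Bool) (m : ℕ) :
    M T - (1 / 2) ^ τ.length ≤ M (kill T τ m) := by
  have h1 : paths T \ cyl τ ⊆ paths (kill T τ m) := by
    rintro x ⟨hx, hxτ⟩ n
    rw [kill_iff]
    exact ⟨hx n, fun h => hxτ (seg_eq_of_prefix h.1)⟩
  have h2 := measureReal_mono (μ := coin) h1
  have h3 := le_measureReal_sdiff (μ := coin) (s₁ := paths T) (s₂ := cyl τ)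
  rw [coin_real_cyl] at h3
  exact h3.trans h2

theorem nhds_agree {T : StrSet} {u : Set StrSet} (hu : u ∈ 𝓝 T) :
    ∃ m, ∀ T', Agree m T T' → T' ∈ u := by
  rw [nhds_pi, Filter.mem_pi] at hu
  obtain ⟨I, hI, t, ht, htu⟩ := hu
  obtain ⟨m, hm⟩ : ∃ m, ∀ σ ∈ I, σ.length < m := by
    obtain ⟨m, hm⟩ := (hI.image List.length).bddAbove
    exact ⟨m + 1, fun σ hσ => Nat.lt_succ_of_le (hm ⟨σ, hσ, rfl⟩)⟩
  refine ⟨m, fun T' h => htu fun σ hσ => ?_⟩
  rw [h σ (hm σ hσ)]
  exact mem_of_mem_nhds (ht σ)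

theorem agree_mem_nhds (T : StrSet) (m : ℕ) : {T' | Agree m T T'} ∈ 𝓝 T := by
  have h1 : IsOpen {T' : StrSet | Agree m T T'} := by
    have h2 : {T' : StrSet | Agree m T T'} =
        ⋂ σ ∈ {σ : List Bool | σ.length < m}, {T' : StrSet | T' σ = T σ} := by
      ext T'
      simp [Agree]
    rw [h2]
    refine (List.finite_length_lt Bool m).isOpen_biInter fun σ _ => ?_
    exact (isOpen_discrete ({T σ} : Set Bool)).preimage
      (continuous_apply (A := fun _ : List Bool => Bool) σ)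
  exact h1.mem_nhds (Agree.refl m T)

theorem cont_agree {n : ℕ} {D : Set StrSet} {Ψ : StrSet → Fin n → StrSet}
    (h : ContinuousOn Ψ D) {T : StrSet} (hT : T ∈ D) (L : ℕ) :
    ∃ m, ∀ T' ∈ D, Agree m T T' → ∀ c, Agree L (Ψ T c) (Ψ T' c) := by
  have h1 : ∀ c, ∀ᶠ T' in 𝓝[D] T, Agree L (Ψ T c) (Ψ T' c) := by
    intro c
    have h2 : Tendsto (fun T' => Ψ T' c) (𝓝[D] T) (𝓝 (Ψ T c)) :=
      (continuous_apply c).continuousAt.tendsto.comp (h T hT)
    exact h2 (agree_mem_nhds (Ψ T c) L)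
  have h2 : ∀ᶠ T' in 𝓝[D] T, ∀ c, Agree L (Ψ T c) (Ψ T' c) := Filter.eventually_all.2 h1
  rw [eventually_nhdsWithin_iff] at h2
  obtain ⟨m, hm⟩ := nhds_agree h2
  exact ⟨m, fun T' hT' h3 => hm T' h3 hT'⟩

theorem set_usc {n : ℕ} {D : Set StrSet} {Ψ : StrSet → Fin n → StrSet}
    (h : ContinuousOn Ψ D) (htree : ∀ T ∈ D, ∀ c, IsTree (Ψ T c)) {T : StrSet} (hT : T ∈ D)
    {ε : ℝ} (hε : 0 < ε) :
    ∃ m, ∀ T' ∈ D, Agree m T T' → ∀ c,
      coin.real (paths (Ψ T' c) \ paths (Ψ T c)) ≤ ε := by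
  choose l hl using fun c => diff_usc (htree T hT c) hε
  obtain ⟨m, hm⟩ := cont_agree h hT (Finset.univ.sup l)
  exact ⟨m, fun T' hT' h1 c => hl c _
    ((hm T' hT' h1 c).mono (Finset.le_sup (f := l) (Finset.mem_univ c)))⟩

/-- The set of paths of each component loses little when a string of `T` is killed. -/
theorem loss {n : ℕ} {D : Set StrSet} {Ψ : StrSet → Fin n → StrSet}
    (h : ContinuousOn Ψ D) (htree : ∀ T ∈ D, ∀ c, IsTree (Ψ T c)) {T : StrSet} (hT : T ∈ D)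
    (hTt : IsTree T) {a : ℝ} (hTM : a < M T) {m0 : ℕ} {C : ℝ} (hC : 0 ≤ C)
    {pick : StrSet → ℕ → StrSet}
    (hpick : ∀ T' m, IsTree T' → Sub T' T → a < M T' → m0 ≤ m → Agree m T T' →
      pick T' m ∈ D ∧ Sub (pick T' m) T' ∧ Agree m T' (pick T' m))
    (hF : ∀ ε > 0, ∃ m1, ∀ T' m, IsTree T' → Sub T' T → a < M T' → m1 ≤ m → Agree m T T' →
      ∑ c, coin.real (paths (Ψ T c)) ≤
        ∑ c, coin.real (paths (Ψ (pick T' m) c)) + C * (M T - M T') + ε) :
    ∃ L0 : ℕ, (∀ (τ : List Bool) (m : ℕ), L0 ≤ τ.length → m0 ≤ m →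
        pick (kill T τ m) m ∈ D ∧ Sub (pick (kill T τ m) m) (kill T τ m) ∧
        Agree m T (pick (kill T τ m) m)) ∧
      ∀ ε > 0, ∃ m1, ∀ (τ : List Bool) (m : ℕ), L0 ≤ τ.length → m1 ≤ m → ∀ c,
        coin.real (paths (Ψ T c) \ paths (Ψ (pick (kill T τ m) m) c)) ≤
          C * (1 / 2) ^ τ.length + ε := by
  obtain ⟨L0, hL0⟩ := exists_pow_lt_of_lt_one (sub_pos.2 hTM)
    (show (1 / 2 : ℝ) < 1 by norm_num)
  have hpos : ∀ (τ : List Bool) (m : ℕ), L0 ≤ τ.length → a < M (kill T τ m) := by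
    intro τ m hτ
    have h1 := kill_M T τ m
    have h2 : (1 / 2 : ℝ) ^ τ.length ≤ (1 / 2) ^ L0 :=
      pow_le_pow_of_le_one (by norm_num) (by norm_num) hτ
    linarith
  refine ⟨L0, fun τ m hτ hm => ?_, fun ε hε => ?_⟩
  · obtain ⟨h1, h2, h3⟩ := hpick _ m (kill_tree hTt τ m) (kill_sub T τ m) (hpos τ m hτ) hm
      (kill_agree T τ m)
    exact ⟨h1, h2, (kill_agree T τ m).trans h3⟩
  · have hδ : 0 < ε / (n + 1) := by positivity
    set δ := ε / (n + 1) with hδdef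
    obtain ⟨ma, hma⟩ := hF δ hδ
    obtain ⟨mb, hmb⟩ := set_usc h htree hT hδ
    refine ⟨max m0 (max ma mb), fun τ m hτ hm c => ?_⟩
    have hm0 : m0 ≤ m := (le_max_left _ _).trans hm
    have hm1 : ma ≤ m := ((le_max_left _ _).trans (le_max_right _ _)).trans hm
    have hm2 : mb ≤ m := ((le_max_right _ _).trans (le_max_right _ _)).trans hm
    have h1 := hma _ m (kill_tree hTt τ m) (kill_sub T τ m) (hpos τ m hτ) hm1
      (kill_agree T τ m)
    obtain ⟨h2, -, h3⟩ := hpick _ m (kill_tree hTt τ m) (kill_sub T τ m) (hpos τ m hτ) hm0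
      (kill_agree T τ m)
    have h4 := hmb _ h2 (((kill_agree T τ m).trans h3).mono hm2)
    set T'' := pick (kill T τ m) m with hT''
    have h5 : ∀ c, coin.real (paths (Ψ T c) \ paths (Ψ T'' c)) ≤
        coin.real (paths (Ψ T c)) - coin.real (paths (Ψ T'' c)) + δ := by
      intro c
      have h6 := h4 c
      have h7 := measureReal_inter_add_sdiff (μ := coin) (s := paths (Ψ T c))
        (measurableSet_paths (Ψ T'' c))
      have h8 := measureReal_inter_add_sdiff (μ := coin) (s := paths (Ψ T'' c))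
        (measurableSet_paths (Ψ T c))
      rw [Set.inter_comm] at h8
      linarith
    have h6 : coin.real (paths (Ψ T c) \ paths (Ψ T'' c)) ≤
        ∑ c, coin.real (paths (Ψ T c) \ paths (Ψ T'' c)) :=
      Finset.single_le_sum (f := fun c => coin.real (paths (Ψ T c) \ paths (Ψ T'' c)))
        (fun _ _ => measureReal_nonneg) (Finset.mem_univ c)
    have h7 : ∑ c, coin.real (paths (Ψ T c) \ paths (Ψ T'' c)) ≤
        ∑ c, (coin.real (paths (Ψ T c)) - coin.real (paths (Ψ T'' c)) + δ) :=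
      Finset.sum_le_sum fun c _ => h5 c
    rw [Finset.sum_add_distrib, Finset.sum_sub_distrib] at h7
    simp only [Finset.sum_const, Finset.card_univ, Fintype.card_fin, nsmul_eq_mul] at h7
    have h8 : C * (M T - M (kill T τ m)) ≤ C * (1 / 2) ^ τ.length := by
      refine mul_le_mul_of_nonneg_left ?_ hC
      have := kill_M T τ m
      linarith
    have h9 : (n + 1) * δ = ε := by
      rw [hδdef]; field_simp
    linarith

end Pool.Agent.PTree
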