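import Pool.Agent.PTree.Defs

/-!
# The measure of a tree
-/

set_option autoImplicit false

namespace Pool.Agent.PTree

open MeasureTheory Filter Topology

/-- The uniform measure on Cantor space. -/
noncomputable def coin : Measure (ℕ → Bool) :=
  Measure.infinitePi fun _ => (PMF.uniformOfFintype Bool).toMeasure

instance : IsProbabilityMeasure coin := by unfold coin; infer_instance

theorem half_singleton (b : Bool) : (PMF.uniformOfFintype Bool).toMeasure {b} = 2⁻¹ := by
  rw [PMF.toMeasure_apply_singleton _ _ (measurableSet_singleton b), PMF.uniformOfFintype_apply]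
  simp

@[simp] theorem seg_length (x : ℕ → Bool) (n : ℕ) : (seg x n).length = n := by simp [seg]

theorem seg_take (x : ℕ → Bool) {m n : ℕ} (h : m ≤ n) : (seg x n).take m = seg x m := by
  simp [seg, ← List.map_take, List.take_range, min_eq_left h]

theorem seg_prefix (x : ℕ → Bool) {m n : ℕ} (h : m ≤ n) : seg x m <+: seg x n := by
  rw [← seg_take x h]
  exact List.take_prefix _ _

theorem seg_eq_iff (x y : ℕ → Bool) (n : ℕ) : seg x n = seg y n ↔ ∀ i < n, x i = y i := by
  simp [seg]

theorem seg_eq_of_prefix {x : ℕ → Bool} {σ : List Bool} {n : ℕ} (h : σ <+: seg x n) :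
    seg x σ.length = σ := by
  have h1 : σ.length ≤ n := by simpa using h.length_le
  rw [← seg_take x h1]
  exact (List.prefix_iff_eq_take.1 h).symm

/-- The cylinder of `σ`. -/
def cyl (σ : List Bool) : Set (ℕ → Bool) := {x | seg x σ.length = σ}

theorem mem_cyl_seg (x : ℕ → Bool) (n : ℕ) : x ∈ cyl (seg x n) := by
  simp [cyl]

theorem seg_eq_ofFn (x : ℕ → Bool) (n : ℕ) : seg x n = List.ofFn fun i : Fin n => x i := by
  apply List.ext_getElem
  · simp
  · intro i h1 h2
    simp [seg]

theorem measurableSet_seg (n : ℕ) (p : List Bool → Prop) :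
    MeasurableSet {x : ℕ → Bool | p (seg x n)} := by
  have h1 : Measurable fun x : ℕ → Bool => (fun i : Fin n => x i) :=
    measurable_pi_lambda _ fun i => measurable_pi_apply _
  have h2 : {x : ℕ → Bool | p (seg x n)} =
      (fun x : ℕ → Bool => (fun i : Fin n => x i)) ⁻¹' {v | p (List.ofFn v)} := by
    ext x
    simp [seg_eq_ofFn]
  rw [h2]
  exact h1 (MeasurableSet.of_discrete)

theorem measurableSet_cyl (σ : List Bool) : MeasurableSet (cyl σ) :=
  measurableSet_seg σ.length fun τ => τ = σ

theorem coin_cyl (σ : List Bool) : coin (cyl σ) = 2⁻¹ ^ σ.length := by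
  have h1 : cyl σ = Set.pi (Finset.range σ.length) (fun n => ({(σ[n]?).getD false} : Set Bool)) := by
    ext x
    simp only [cyl, Set.mem_ofPred_eq, Set.mem_pi, Finset.coe_range, Set.mem_Iio,
      Set.mem_singleton_iff]
    constructor
    · intro h n hn
      conv_rhs => rw [← h]
      simp [seg, hn]
    · intro h
      apply List.ext_getElem
      · simp
      · intro i h1 h2
        have h3 := h i h2
        simp [h2] at h3
        simp [seg, h3]
  rw [h1, coin, Measure.infinitePi_pi _ (fun i _ => measurableSet_singleton _)]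
  simp

theorem coin_real_cyl (σ : List Bool) : coin.real (cyl σ) = (1 / 2) ^ σ.length := by
  rw [Measure.real, coin_cyl]
  simp

theorem coin_singleton (x : ℕ → Bool) : coin {x} = 0 := by
  have h1 : ∀ c : ℕ, coin {x} ≤ 2⁻¹ ^ c := by
    intro c
    have h2 : ({x} : Set (ℕ → Bool)) ⊆ cyl (seg x c) := by
      intro y hy
      rw [Set.mem_singleton_iff.1 hy]
      exact mem_cyl_seg x c
    refine (measure_mono h2).trans ?_
    rw [coin_cyl, seg_length]
  have h3 : Tendsto (fun c : ℕ => (2⁻¹ : ENNReal) ^ c) atTop (nhds 0) :=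
    ENNReal.tendsto_pow_atTop_nhds_zero_of_lt_one (by norm_num)
  exact le_antisymm (ge_of_tendsto' h3 h1) zero_le

/-- The points whose initial segment of length `n` is in `T`. -/
def lv (T : StrSet) (n : ℕ) : Set (ℕ → Bool) := {x | T (seg x n) = true}

/-- The set of paths through `T`. -/
def paths (T : StrSet) : Set (ℕ → Bool) := {x | ∀ n, T (seg x n) = true}

/-- The measure of the set of paths through `T`. -/
noncomputable def M (T : StrSet) : ℝ := coin.real (paths T)

theorem measurableSet_lv (T : StrSet) (n : ℕ) : MeasurableSet (lv T n) :=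
  measurableSet_seg n fun σ => T σ = true

theorem paths_eq (T : StrSet) : paths T = ⋂ n, lv T n := by
  ext x
  simp [paths, lv]

theorem measurableSet_paths (T : StrSet) : MeasurableSet (paths T) := by
  rw [paths_eq]
  exact MeasurableSet.iInter fun n => measurableSet_lv T n

theorem lv_antitone {T : StrSet} (hT : IsTree T) : Antitone (lv T) := by
  intro m n hmn x hx
  exact hT _ _ (seg_prefix x hmn) hx

theorem paths_subset_lv (T : StrSet) (n : ℕ) : paths T ⊆ lv T n := fun _ hx => hx n

/-- The strings of length `l`. -/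
def strs (l : ℕ) : Finset (List Bool) :=
  (Finset.univ : Finset (Fin l → Bool)).image List.ofFn

@[simp] theorem mem_strs {l : ℕ} {σ : List Bool} : σ ∈ strs l ↔ σ.length = l := by
  constructor
  · intro h
    obtain ⟨v, -, hv⟩ := Finset.mem_image.1 h
    rw [← hv]
    simp
  · intro h
    subst h
    exact Finset.mem_image.2 ⟨fun i => σ.get i, Finset.mem_univ _, List.ofFn_get σ⟩

theorem card_strs (l : ℕ) : (strs l).card = 2 ^ l := by
  rw [strs, Finset.card_image_of_injective _ List.ofFn_injective]
  simp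

theorem lv_eq_biUnion (T : StrSet) (n : ℕ) :
    lv T n = ⋃ σ ∈ (strs n).filter (fun σ => T σ = true), cyl σ := by
  ext x
  simp only [lv, Set.mem_ofPred_eq, Finset.mem_filter, mem_strs, Set.mem_iUnion, cyl, exists_prop]
  constructor
  · intro h
    exact ⟨seg x n, ⟨by simp, h⟩, by simp⟩
  · rintro ⟨σ, ⟨h1, h2⟩, h3⟩
    rw [← h1, h3]
    exact h2

theorem coin_lv (T : StrSet) (n : ℕ) :
    coin.real (lv T n) = (((strs n).filter (fun σ => T σ = true)).card : ℝ) * (1 / 2) ^ n := by
  rw [lv_eq_biUnion, measureReal_biUnion_finset]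
  · rw [Finset.sum_congr rfl (g := fun _ => (1 / 2 : ℝ) ^ n)]
    · simp
    · intro σ hσ
      rw [coin_real_cyl, mem_strs.1 (Finset.mem_filter.1 hσ).1]
  · intro σ hσ τ hτ hne
    rw [Function.onFun, Set.disjoint_left]
    intro x hx hx'
    apply hne
    have h1 : σ.length = n := mem_strs.1 (Finset.mem_filter.1 (Finset.mem_coe.1 hσ)).1
    have h2 : τ.length = n := mem_strs.1 (Finset.mem_filter.1 (Finset.mem_coe.1 hτ)).1
    have h3 : seg x σ.length = σ := hx
    have h4 : seg x τ.length = τ := hx'
    rw [← h3, ← h4, h1, h2]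
  · intro σ _
    exact measurableSet_cyl σ

theorem ncard_level (T : StrSet) (n : ℕ) :
    {σ : List Bool | σ.length = n ∧ T σ = true}.ncard =
      ((strs n).filter (fun σ => T σ = true)).card := by
  rw [← Set.ncard_coe_finset]
  congr 1
  ext σ
  simp

theorem tendsto_lv {T : StrSet} (hT : IsTree T) :
    Tendsto (fun n => coin.real (lv T n)) atTop (𝓝 (M T)) := by
  have h1 : Tendsto (fun n => coin (lv T n)) atTop (𝓝 (coin (⋂ n, lv T n))) :=
    tendsto_measure_iInter_atTop (fun n => (measurableSet_lv T n).nullMeasurableSet)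
      (lv_antitone hT) ⟨0, measure_ne_top _ _⟩
  rw [← paths_eq] at h1
  exact (ENNReal.tendsto_toReal (measure_ne_top _ _)).comp h1

theorem M_le_lv (T : StrSet) (n : ℕ) : M T ≤ coin.real (lv T n) :=
  measureReal_mono (paths_subset_lv T n)

theorem positive_iff (T : StrSet) : Positive T ↔ IsTree T ∧ 0 < M T := by
  constructor
  · rintro ⟨hT, q, hq, h⟩
    refine ⟨hT, lt_of_lt_of_le (Rat.cast_pos.2 hq : (0 : ℝ) < (q : ℝ)) ?_⟩
    refine ge_of_tendsto' (tendsto_lv hT) fun n => ?_
    rw [coin_lv]
    have h1 := h n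
    rw [ncard_level] at h1
    have h2 : ((q * 2 ^ n : ℚ) : ℝ) ≤
        ((((strs n).filter (fun σ => T σ = true)).card : ℚ) : ℝ) := by exact_mod_cast h1
    push_cast at h2
    calc (q : ℝ) = (q * 2 ^ n) * (1 / 2) ^ n := by
          rw [mul_assoc, ← mul_pow]; norm_num
      _ ≤ _ := mul_le_mul_of_nonneg_right h2 (by positivity)
  · rintro ⟨hT, h⟩
    obtain ⟨q, hq1, hq2⟩ := exists_rat_btwn h
    refine ⟨hT, q, by exact_mod_cast hq1, fun n => ?_⟩
    rw [ncard_level]
    have h1 : (q : ℝ) ≤ (((strs n).filter (fun σ => T σ = true)).card : ℝ) * (1 / 2) ^ n := by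
      rw [← coin_lv]
      exact hq2.le.trans (M_le_lv T n)
    have h2 : (q : ℝ) * 2 ^ n ≤ (((strs n).filter (fun σ => T σ = true)).card : ℝ) := by
      calc (q : ℝ) * 2 ^ n ≤
          ((((strs n).filter (fun σ => T σ = true)).card : ℝ) * (1 / 2) ^ n) * 2 ^ n :=
            mul_le_mul_of_nonneg_right h1 (by positivity)
        _ = _ := by rw [mul_assoc, ← mul_pow]; norm_num
    exact_mod_cast h2

/-- `T` and `T'` contain the same strings of length less than `m`. -/
def Agree (m : ℕ) (T T' : StrSet) : Prop := ∀ σ : List Bool, σ.length < m → T' σ = T σ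

/-- `T'` is a subset of `T`. -/
def Sub (T' T : StrSet) : Prop := ∀ σ : List Bool, T' σ = true → T σ = true

theorem Agree.refl (m : ℕ) (T : StrSet) : Agree m T T := fun _ _ => rfl

theorem Agree.trans {m : ℕ} {T T' T'' : StrSet} (h : Agree m T T') (h' : Agree m T' T'') :
    Agree m T T'' := fun σ hσ => (h' σ hσ).trans (h σ hσ)

theorem Agree.mono {m n : ℕ} {T T' : StrSet} (h : Agree n T T') (hmn : m ≤ n) : Agree m T T' :=
  fun σ hσ => h σ (lt_of_lt_of_le hσ hmn)

theorem Sub.refl (T : StrSet) : Sub T T := fun _ h => h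

theorem Sub.trans {T T' T'' : StrSet} (h : Sub T T') (h' : Sub T' T'') : Sub T T'' :=
  fun σ hσ => h' σ (h σ hσ)

theorem Agree.lv_eq {m n : ℕ} {T T' : StrSet} (h : Agree m T T') (hn : n < m) :
    lv T' n = lv T n := by
  ext x
  simp only [lv, Set.mem_ofPred_eq]
  rw [h _ (by simpa using hn)]

theorem Sub.paths {T T' : StrSet} (h : Sub T' T) : paths T' ⊆ paths T :=
  fun _ hx n => h _ (hx n)

theorem Sub.M {T T' : StrSet} (h : Sub T' T) : M T' ≤ M T := measureReal_mono h.paths

theorem M_nonneg (T : StrSet) : 0 ≤ M T := measureReal_nonneg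

theorem M_le_one (T : StrSet) : M T ≤ 1 := measureReal_le_one

/-- The measure is upper semicontinuous. -/
theorem M_usc {T : StrSet} (hT : IsTree T) {ε : ℝ} (hε : 0 < ε) :
    ∃ m, ∀ T', Agree m T T' → M T' ≤ M T + ε := by
  have h1 := (tendsto_lv hT).eventually (ge_mem_nhds (show M T < M T + ε by linarith))
  obtain ⟨n, hn⟩ := h1.exists
  refine ⟨n + 1, fun T' h => ?_⟩
  calc M T' ≤ coin.real (lv T' n) := M_le_lv T' n
    _ = coin.real (lv T n) := by rw [h.lv_eq (Nat.lt_succ_self n)]
    _ ≤ _ := hn

/-- A set version of upper semicontinuity. -/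
theorem diff_usc {T : StrSet} (hT : IsTree T) {ε : ℝ} (hε : 0 < ε) :
    ∃ m, ∀ T', Agree m T T' → coin.real (paths T' \ paths T) ≤ ε := by
  have h1 := (tendsto_lv hT).eventually (ge_mem_nhds (show M T < M T + ε by linarith))
  obtain ⟨n, hn⟩ := h1.exists
  refine ⟨n + 1, fun T' h => ?_⟩
  have h2 : paths T' \ paths T ⊆ lv T n \ paths T := by
    refine Set.sdiff_subset_sdiff_left ?_
    rw [← h.lv_eq (Nat.lt_succ_self n)]
    exact paths_subset_lv T' n
  refine (measureReal_mono h2).trans ?_
  rw [measureReal_sdiff (paths_subset_lv T n) (measurableSet_paths T)]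
  have h3 : coin.real (lv T n) ≤ M T + ε := hn
  change coin.real (lv T n) - M T ≤ ε
  linarith

end Pool.Agent.PTree
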