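import Mathlib

/-!
# Positive trees, perfect trees and sequences of paths: definitions
-/

set_option autoImplicit false

namespace Pool.Agent.PTree

/-- A set of binary strings, given by its characteristic function. With the product topology this
is Cantor space. -/
abbrev StrSet := List Bool → Bool

/-- The initial segment of length `n` of `x`. -/
def seg (x : ℕ → Bool) (n : ℕ) : List Bool := (List.range n).map x

/-- `T` is a tree: it is closed under initial segments. -/
def IsTree (T : StrSet) : Prop := ∀ σ τ : List Bool, σ <+: τ → T τ = true → T σ = true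

/-- `T` is a positive tree: for some rational `q > 0` it has at least `q * 2 ^ n` strings of each
length `n`. -/
def Positive (T : StrSet) : Prop :=
  IsTree T ∧ ∃ q : ℚ, 0 < q ∧
    ∀ n : ℕ, q * 2 ^ n ≤ (({σ : List Bool | σ.length = n ∧ T σ = true}.ncard : ℕ) : ℚ)

/-- `S` is a perfect tree: it is nonempty and each of its strings has two incomparable extensions
in `S`. -/
def Perfect (S : StrSet) : Prop :=
  IsTree S ∧ (∃ σ, S σ = true) ∧ ∀ σ, S σ = true →
    ∃ τ₁ τ₂ : List Bool, σ <+: τ₁ ∧ σ <+: τ₂ ∧ S τ₁ = true ∧ S τ₂ = true ∧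
      ¬ τ₁ <+: τ₂ ∧ ¬ τ₂ <+: τ₁

/-- `X` is a sequence of pairwise distinct paths through `T`. -/
def ManyPaths (T : StrSet) (X : ℕ → ℕ → Bool) : Prop :=
  Function.Injective X ∧ ∀ i n : ℕ, T (seg (X i) n) = true

/-- `τ` has arbitrarily long extensions in `T`. -/
def Extendible (T : StrSet) (τ : List Bool) : Prop :=
  ∀ m : ℕ, ∃ ρ : List Bool, τ <+: ρ ∧ m ≤ ρ.length ∧ T ρ = true

end Pool.Agent.PTree
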