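import Pool.Agent.PTree.Hull

/-!
# Stable trees for countably many potentials
-/

set_option autoImplicit false

namespace Pool.Agent.PTree

open MeasureTheory Filter Topology
open scoped Classical

/-- The trees of measure more than one half. -/
def Big : Set StrSet := {T | IsTree T ∧ 1 / 2 < M T}

/-- One step of the construction. -/
theorem stable_step (D : Set StrSet) (f : StrSet → ℝ) (hf0 : ∀ T, 0 ≤ f T)
    (husc : ∀ T, ∀ ε > 0, ∃ m, ∀ T', Sub T' T → Agree m T T' → f T' ≤ f T + ε)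
    {δ ε : ℝ} (hδ : 0 < δ) (hε : 0 < ε) (T : StrSet) (m : ℕ) (hT : T ∈ Big) :
    ∃ (T2 : StrSet) (m2 : ℕ), T2 ∈ Big ∧ Sub T2 T ∧ Agree m T T2 ∧
      f T2 - 8 * M T2 ≤ f T - 8 * M T + δ ∧
      (∀ T'' ∈ Big, Sub T'' T → Agree m T T'' →
        f T2 - 8 * M T2 ≤ f T'' - 8 * M T'' + ε + δ) ∧
      m < m2 ∧ (∀ T'', Sub T'' T2 → Agree m2 T2 T'' → f T'' ≤ f T2 + ε) ∧
      ((∀ T'' ∈ Big, Sub T'' T2 → Agree m2 T2 T'' → T'' ∉ D) ∨
        ∀ T' ∈ Big, Sub T' T2 → Agree m T2 T' →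
          f T' - 8 * M T' ≤ f T2 - 8 * M T2 + δ →
          ∀ m', m ≤ m' → (Near (D ∩ Big) T' m').Nonempty) := by
  set W : StrSet → ℝ := fun T => f T - 8 * M T with hW
  -- a near minimizer
  set S : Set StrSet := {T'' | T'' ∈ Big ∧ Sub T'' T ∧ Agree m T T''} with hS
  have hTS : T ∈ S := ⟨hT, Sub.refl _, Agree.refl _ _⟩
  have hbdd : BddBelow (W '' S) := by
    refine ⟨-8, ?_⟩
    rintro _ ⟨T'', hT'', rfl⟩
    have h1 := hf0 T''
    have h2 := M_le_one T''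
    simp only [hW]
    linarith
  have hex : ∃ T1 ∈ S, W T1 ≤ W T ∧ W T1 ≤ sInf (W '' S) + ε := by
    by_cases h1 : W T ≤ sInf (W '' S) + ε
    · exact ⟨T, hTS, le_rfl, h1⟩
    · push Not at h1
      obtain ⟨_, ⟨T', hT', rfl⟩, h2⟩ := exists_lt_of_csInf_lt (Set.Nonempty.image W ⟨T, hTS⟩)
        (show sInf (W '' S) < sInf (W '' S) + ε by linarith)
      exact ⟨T', hT', (h2.trans h1).le, h2.le⟩
  obtain ⟨T1, hT1S, h1, h2⟩ := hex
  have h3 : ∀ T'' ∈ Big, Sub T'' T → Agree m T T'' → W T1 ≤ W T'' + ε := by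
    intro T'' h4 h5 h6
    have h7 : sInf (W '' S) ≤ W T'' := csInf_le hbdd ⟨T'', ⟨h4, h5, h6⟩, rfl⟩
    linarith
  by_cases hcase : ∃ T2 ∈ Big, Sub T2 T1 ∧ Agree m T1 T2 ∧ W T2 ≤ W T1 + δ ∧
      ∃ m', m ≤ m' ∧ ¬ (Near (D ∩ Big) T2 m').Nonempty
  · obtain ⟨T2, hT2, h4, h5, h6, m', hm', h7⟩ := hcase
    obtain ⟨m3, hm3⟩ := husc T2 ε hε
    refine ⟨T2, max m3 (max m' (m + 1)), hT2, h4.trans hT1S.2.1, hT1S.2.2.trans h5, ?_, ?_, ?_,
      ?_, Or.inl ?_⟩
    · change W T2 ≤ W T + δ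
      linarith
    · intro T'' h8 h9 h10
      have := h3 T'' h8 h9 h10
      change W T2 ≤ W T'' + ε + δ
      linarith
    · exact lt_of_lt_of_le (Nat.lt_succ_self m) ((le_max_right _ _).trans (le_max_right _ _))
    · intro T'' h8 h9
      exact hm3 T'' h8 (h9.mono (le_max_left _ _))
    · intro T'' h8 h9 h10 h11
      exact h7 ⟨T'', ⟨h11, h8⟩, h9, h10.mono ((le_max_left _ _).trans (le_max_right _ _))⟩
  · push Not at hcase
    obtain ⟨m3, hm3⟩ := husc T1 ε hε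
    refine ⟨T1, max m3 (m + 1), hT1S.1, hT1S.2.1, hT1S.2.2, ?_, ?_, ?_, ?_, Or.inr ?_⟩
    · change W T1 ≤ W T + δ
      linarith
    · intro T'' h8 h9 h10
      have := h3 T'' h8 h9 h10
      change W T1 ≤ W T'' + ε + δ
      linarith
    · exact lt_of_lt_of_le (Nat.lt_succ_self m) (le_max_right _ _)
    · intro T'' h8 h9
      exact hm3 T'' h8 (h9.mono (le_max_left _ _))
    · intro T' h4 h5 h6 h7 m' hm'
      exact hcase T' h4 h5 h6 h7 m' hm'

/-- The variational principle for one usc function and countably many classes. -/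
theorem stable_tree (D : ℕ → Set StrSet) (f : StrSet → ℝ) (hf0 : ∀ T, 0 ≤ f T)
    (hf1 : ∀ T, f T ≤ 1)
    (husc : ∀ T, ∀ ε > 0, ∃ m, ∀ T', Sub T' T → Agree m T T' → f T' ≤ f T + ε) :
    ∃ T ∈ Big, (∀ ε > 0, ∃ m, ∀ T' ∈ Big, Sub T' T → Agree m T T' →
        f T ≤ f T' + 8 * (M T - M T') + ε) ∧
      ∀ j, T ∈ D j → ∃ (a : ℝ) (m0 : ℕ), 1 / 2 < a ∧ a < M T ∧
        ∀ T', IsTree T' → a < M T' → Sub T' T → Agree m0 T T' →
          ∀ m', m0 ≤ m' → (Near (D j ∩ Big) T' m').Nonempty := by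
  set W : StrSet → ℝ := fun T => f T - 8 * M T with hW
  have hδ : ∀ i : ℕ, (0 : ℝ) < (1 / 4) ^ (i + 1) := fun i => by positivity
  have hε : ∀ i : ℕ, (0 : ℝ) < 1 / (i + 1) := fun i => by positivity
  have hstep : ∀ (i : ℕ) (p : {p : StrSet × ℕ // p.1 ∈ Big}), ∃ q : {p : StrSet × ℕ // p.1 ∈ Big},
      Sub q.1.1 p.1.1 ∧ Agree p.1.2 p.1.1 q.1.1 ∧
      W q.1.1 ≤ W p.1.1 + (1 / 4) ^ (i + 1) ∧
      (∀ T'' ∈ Big, Sub T'' p.1.1 → Agree p.1.2 p.1.1 T'' →
        W q.1.1 ≤ W T'' + 1 / (i + 1) + (1 / 4) ^ (i + 1)) ∧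
      p.1.2 < q.1.2 ∧ (∀ T'', Sub T'' q.1.1 → Agree q.1.2 q.1.1 T'' →
        f T'' ≤ f q.1.1 + 1 / (i + 1)) ∧
      ((∀ T'' ∈ Big, Sub T'' q.1.1 → Agree q.1.2 q.1.1 T'' → T'' ∉ D i) ∨
        ∀ T' ∈ Big, Sub T' q.1.1 → Agree p.1.2 q.1.1 T' →
          W T' ≤ W q.1.1 + (1 / 4) ^ (i + 1) →
          ∀ m', p.1.2 ≤ m' → (Near (D i ∩ Big) T' m').Nonempty) := by
    rintro i ⟨⟨T, m⟩, hT⟩
    obtain ⟨T2, m2, h1, h2, h3, h4, h5, h6, h7, h8⟩ :=
      stable_step (D i) f hf0 husc (hδ i) (hε i) T m hT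
    exact ⟨⟨⟨T2, m2⟩, h1⟩, h2, h3, h4, h5, h6, h7, h8⟩
  choose nx hsub hagree hWle hmin hlt hup hdich using hstep
  have hfull : (fun _ => true : StrSet) ∈ Big := ⟨fun _ _ _ _ => rfl, by rw [M_full]; norm_num⟩
  set sq : ℕ → {p : StrSet × ℕ // p.1 ∈ Big} := fun k =>
    Nat.rec ⟨⟨fun _ => true, 0⟩, hfull⟩ (fun k s => nx k s) k with hsq
  set T : ℕ → StrSet := fun k => (sq k).1.1 with hTdef
  set m : ℕ → ℕ := fun k => (sq k).1.2 with hmdef
  have hTB : ∀ k, T k ∈ Big := fun k => (sq k).2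
  have hmlt : ∀ k, m k < m (k + 1) := fun k => hlt k (sq k)
  have hTS : ∀ k, Sub (T (k + 1)) (T k) := fun k => hsub k (sq k)
  have hTA : ∀ k, Agree (m k) (T k) (T (k + 1)) := fun k => hagree k (sq k)
  have hTW : ∀ k, W (T (k + 1)) ≤ W (T k) + (1 / 4) ^ (k + 1) := fun k => hWle k (sq k)
  have hTmin : ∀ k, ∀ T'' ∈ Big, Sub T'' (T k) → Agree (m k) (T k) T'' →
      W (T (k + 1)) ≤ W T'' + 1 / (k + 1) + (1 / 4) ^ (k + 1) := fun k => hmin k (sq k)
  have hTup : ∀ k, ∀ T'', Sub T'' (T (k + 1)) → Agree (m (k + 1)) (T (k + 1)) T'' →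
      f T'' ≤ f (T (k + 1)) + 1 / (k + 1) := fun k => hup k (sq k)
  have hTd : ∀ k, (∀ T'' ∈ Big, Sub T'' (T (k + 1)) → Agree (m (k + 1)) (T (k + 1)) T'' →
        T'' ∉ D k) ∨
      ∀ T' ∈ Big, Sub T' (T (k + 1)) → Agree (m k) (T (k + 1)) T' →
        W T' ≤ W (T (k + 1)) + (1 / 4) ^ (k + 1) →
        ∀ m', m k ≤ m' → (Near (D k ∩ Big) T' m').Nonempty := fun k => hdich k (sq k)
  have hT0 : T 0 = fun _ => true := rfl
  clear_value T m
  have hmono : Monotone m := monotone_nat_of_le_succ fun k => (hmlt k).le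
  have hmk : ∀ k, k ≤ m k := by
    intro k
    induction k with
    | zero => exact Nat.zero_le _
    | succ k ih => exact lt_of_le_of_lt ih (hmlt k)
  -- the corrected potential decreases
  have hV : Antitone fun k : ℕ => W (T k) + (1 / 4) ^ k / 3 := by
    refine antitone_nat_of_succ_le fun k => ?_
    have h1 := hTW k
    have h2 : ((1 : ℝ) / 4) ^ (k + 1) = (1 / 4) ^ k * (1 / 4) := pow_succ _ _
    rw [h2] at h1 ⊢
    linarith
  have hTM : ∀ k, 5 / 6 ≤ M (T k) := by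
    intro k
    have h1 : W (T k) + (1 / 4) ^ k / 3 ≤ W (T 0) + (1 / 4) ^ 0 / 3 := hV (Nat.zero_le k)
    have h2 : (0 : ℝ) ≤ (1 / 4) ^ k / 3 := by positivity
    have h3 := hf0 (T k)
    have h4 := hf1 (T 0)
    have h5 : M (T 0) = 1 := by rw [hT0]; exact M_full
    simp only [hW, pow_zero] at h1
    linarith
  obtain ⟨Ts, hTsT, hTsS, hTsA, hTsM⟩ := limit_tree T m hmlt (fun k => (hTB k).1) hTS hTA hTM
  have hTsB : Ts ∈ Big := ⟨hTsT, by linarith⟩
  -- `W Ts` is at most the lower limit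
  have hWs : ∀ ε > 0, ∃ I, ∀ i, I ≤ i → W Ts ≤ W (T (i + 1)) + ε := by
    intro ε hε0
    obtain ⟨mu, hmu⟩ := M_usc hTsT (show 0 < ε / 16 by positivity)
    obtain ⟨N, hN⟩ := exists_nat_gt (2 / ε)
    refine ⟨max mu N, fun i hi => ?_⟩
    have h1 : M (T (i + 1)) ≤ M Ts + ε / 16 :=
      hmu _ (((hTsA (i + 1)).mono (((le_max_left _ _).trans hi).trans
        ((Nat.le_succ i).trans (hmk (i + 1))))).symm)
    have h2 : f Ts ≤ f (T (i + 1)) + 1 / (i + 1) := hTup i Ts (hTsS (i + 1)) (hTsA (i + 1))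
    have h3 : (1 : ℝ) / (i + 1) ≤ ε / 2 := by
      have h4 : (N : ℝ) ≤ i := by exact_mod_cast (le_max_right _ _).trans hi
      rw [div_le_iff₀ (by positivity)]
      rw [div_lt_iff₀ hε0] at hN
      nlinarith
    simp only [hW]
    linarith
  refine ⟨Ts, hTsB, fun ε hε0 => ?_, fun j hj => ?_⟩
  · obtain ⟨I, hI⟩ := hWs (ε / 4) (by positivity)
    obtain ⟨N, hN⟩ := exists_nat_gt (4 / ε)
    obtain ⟨N', hN'⟩ := exists_pow_lt_of_lt_one (show 0 < ε / 4 by positivity)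
      (show (1 / 4 : ℝ) < 1 by norm_num)
    set i := max I (max N N') with hi
    refine ⟨m i, fun T' hT' hS' hA' => ?_⟩
    have h1 := hI i (le_max_left _ _)
    have h2 := hTmin i T' hT' (hS'.trans (hTsS i)) ((hTsA i).trans hA')
    have h3 : (1 : ℝ) / (i + 1) ≤ ε / 4 := by
      have h4 : (N : ℝ) ≤ i := by exact_mod_cast (le_max_left _ _).trans (le_max_right _ _)
      rw [div_le_iff₀ (by positivity)]
      rw [div_lt_iff₀ hε0] at hN
      nlinarith
    have h4 : ((1 : ℝ) / 4) ^ (i + 1) ≤ ε / 4 := by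
      refine le_trans (pow_le_pow_of_le_one (by norm_num) (by norm_num) ?_) hN'.le
      exact ((le_max_right _ _).trans (le_max_right _ _)).trans (Nat.le_succ i)
    simp only [hW] at h1 h2
    linarith
  · have hd := (hTd j).resolve_left fun h => h Ts hTsB (hTsS (j + 1)) (hTsA (j + 1)) hj
    set δ : ℝ := (1 / 4) ^ (j + 1) with hδdef
    have hδ0 : 0 < δ := hδ j
    have hδ1 : δ ≤ 1 / 4 := by
      rw [hδdef]
      calc ((1 : ℝ) / 4) ^ (j + 1) ≤ (1 / 4) ^ 1 :=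
            pow_le_pow_of_le_one (by norm_num) (by norm_num) (by omega)
        _ = 1 / 4 := by norm_num
    have hWj : W Ts ≤ W (T (j + 1)) + δ / 3 + δ / 8 := by
      obtain ⟨I, hI⟩ := hWs (δ / 8) (by positivity)
      have h1 := hI (max I j) (le_max_left _ _)
      have h2 : W (T (max I j + 1)) + (1 / 4) ^ (max I j + 1) / 3 ≤
          W (T (j + 1)) + (1 / 4) ^ (j + 1) / 3 := hV (Nat.succ_le_succ (le_max_right _ _))
      have h3 : (0 : ℝ) ≤ (1 / 4) ^ (max I j + 1) / 3 := by positivity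
      linarith
    obtain ⟨mu, hmu⟩ := husc Ts (δ / 8) (by positivity)
    refine ⟨M Ts - δ / 64, max mu (m (j + 1)), by linarith, by linarith,
      fun T' hT' hM' hS' hA' m' hm' => ?_⟩
    have hmj : m j ≤ m (j + 1) := (hmlt j).le
    refine hd T' ⟨hT', by linarith⟩ (hS'.trans (hTsS (j + 1)))
      (((hTsA (j + 1)).mono hmj).trans (hA'.mono (hmj.trans (le_max_right _ _)))) ?_ m'
      ((hmj.trans (le_max_right _ _)).trans hm')
    have h1 := hmu T' hS' (hA'.mono (le_max_left _ _))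
    simp only [hW] at hWj ⊢
    linarith

/-- **Stable trees.** -/
theorem stable (D : ℕ → Set StrSet) (F : ℕ → StrSet → ℝ) (B : ℕ → ℝ) (h0 : ∀ j T, 0 ≤ F j T)
    (hB : ∀ j T, F j T ≤ B j) :
    ∃ T, IsTree T ∧ 0 < M T ∧ ∀ j, T ∈ D j → ∃ (a : ℝ) (m0 : ℕ) (C : ℝ), a < M T ∧ 0 ≤ C ∧
      ∃ pick : StrSet → ℕ → StrSet,
        (∀ T' m, IsTree T' → Sub T' T → a < M T' → m0 ≤ m → Agree m T T' →
          pick T' m ∈ D j ∧ Sub (pick T' m) T' ∧ Agree m T' (pick T' m)) ∧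
        ∀ ε > 0, ∃ m1, ∀ T' m, IsTree T' → Sub T' T → a < M T' → m1 ≤ m → Agree m T T' →
          F j T ≤ F j (pick T' m) + C * (M T - M T') + ε := by
  have hB0 : ∀ j, 0 ≤ B j := fun j => (h0 j fun _ => true).trans (hB j _)
  set w : ℕ → ℝ := fun j => (1 / 2) ^ (j + 1) / (B j + 1) with hw
  have hw0 : ∀ j, 0 < w j := fun j => div_pos (by positivity) (by have := hB0 j; linarith)
  set g : ℕ → StrSet → ℝ := fun j T => w j * hull (D j ∩ Big) (F j) T with hg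
  have hg0 : ∀ j T, 0 ≤ g j T := fun j T => mul_nonneg (hw0 j).le (hull_nonneg (h0 j) T)
  have hg1 : ∀ j T, g j T ≤ (1 / 2) ^ (j + 1) := by
    intro j T
    have h1 := hull_le (X := D j ∩ Big) (h0 j) (hB j) T
    have h2 := hB0 j
    simp only [hg, hw]
    rw [div_mul_eq_mul_div, div_le_iff₀ (by linarith)]
    exact mul_le_mul_of_nonneg_left (by linarith) (by positivity)
  have hgusc : ∀ j T, ∀ ε > 0, ∃ m, ∀ T', Sub T' T → Agree m T T' → g j T' ≤ g j T + ε := by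
    intro j T ε hε
    obtain ⟨m, hm⟩ := hull_usc (X := D j ∩ Big) (h0 j) (hB j) T (div_pos hε (hw0 j))
    refine ⟨m, fun T' h1 h2 => ?_⟩
    have h3 := mul_le_mul_of_nonneg_left (hm T' h1 h2) (hw0 j).le
    rw [mul_add, mul_div_cancel₀ _ (hw0 j).ne'] at h3
    exact h3
  have hs := summable_of_bounds hg0 hg1
  obtain ⟨T, hTB, hTst, hTD⟩ := stable_tree D (fun T => ∑' i, g i T)
    (fun T => tsum_nonneg fun i => hg0 i T)
    (fun T => by
      rw [← tsum_half_succ]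
      exact Summable.tsum_le_tsum (fun i => hg1 i T) (hs T) summable_half_succ)
    (fun T ε hε => tsum_usc hg0 hg1 hgusc T hε)
  refine ⟨T, hTB.1, by have := hTB.2; linarith, fun j hj => ?_⟩
  obtain ⟨a, m0, ha, haM, hne⟩ := hTD j hj
  have hpick : ∀ (T' : StrSet) (m : ℕ), ∃ T'' : StrSet,
      (IsTree T' → Sub T' T → a < M T' → m0 ≤ m → Agree m T T' →
        T'' ∈ Near (D j ∩ Big) T' m ∧
        hull (D j ∩ Big) (F j) T' - 1 / (m + 1) ≤ F j T'') := by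
    intro T' m
    by_cases h : IsTree T' ∧ Sub T' T ∧ a < M T' ∧ m0 ≤ m ∧ Agree m T T'
    · obtain ⟨h1, h2, h3, h4, h5⟩ := h
      obtain ⟨T'', h6, h7⟩ := hull_attained (h0 j) (hne T' h1 h3 h2 (h5.mono h4) m h4)
        (show (0 : ℝ) < 1 / (m + 1) by positivity)
      exact ⟨T'', fun _ _ _ _ _ => ⟨h6, h7⟩⟩
    · exact ⟨T', fun h1 h2 h3 h4 h5 => absurd ⟨h1, h2, h3, h4, h5⟩ h⟩
  choose pick hpick using hpick
  refine ⟨a, m0, 8 / w j, haM, (div_pos (by norm_num) (hw0 j)).le, pick, ?_, ?_⟩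
  · intro T' m h1 h2 h3 h4 h5
    obtain ⟨h6, -⟩ := hpick T' m h1 h2 h3 h4 h5
    exact ⟨h6.1.1, h6.2.1, h6.2.2⟩
  · intro ε hε
    have hwj := hw0 j
    -- the other summands
    set g' : ℕ → StrSet → ℝ := fun i T => if i = j then 0 else g i T with hg'
    obtain ⟨ma, hma⟩ := tsum_usc (g := g') (fun i T => by
        simp only [hg']; split_ifs
        · exact le_rfl
        · exact hg0 i T)
      (fun i T => by
        simp only [hg']; split_ifs
        · positivity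
        · exact hg1 i T)
      (fun i T ε hε => by
        by_cases hij : i = j
        · exact ⟨0, fun T' _ _ => by simp only [hg', hij, if_true]; linarith⟩
        · obtain ⟨m, hm⟩ := hgusc i T ε hε
          exact ⟨m, fun T' h1 h2 => by simpa only [hg', hij, if_false] using hm T' h1 h2⟩)
      T (show 0 < w j * (ε / 3) by positivity)
    obtain ⟨mb, hmb⟩ := hTst (w j * (ε / 3)) (by positivity)
    obtain ⟨mc, hmc⟩ := exists_nat_gt (3 / ε)
    refine ⟨max m0 (max ma (max mb mc)), fun T' m h1 h2 h3 h4 h5 => ?_⟩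
    have hm0 : m0 ≤ m := (le_max_left _ _).trans h4
    have hma' : ma ≤ m := ((le_max_left _ _).trans (le_max_right _ _)).trans h4
    have hmb' : mb ≤ m :=
      (((le_max_left _ _).trans (le_max_right _ _)).trans (le_max_right _ _)).trans h4
    have hmc' : mc ≤ m :=
      (((le_max_right _ _).trans (le_max_right _ _)).trans (le_max_right _ _)).trans h4
    obtain ⟨h6, h7⟩ := hpick T' m h1 h2 h3 hm0 h5
    have h8 := hma T' h2 (h5.mono hma')
    have h9 := hmb T' ⟨h1, by linarith⟩ h2 (h5.mono hmb')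
    have h10 : F j T ≤ hull (D j ∩ Big) (F j) T := le_hull (hB j) ⟨hj, hTB⟩
    rw [(hs T).tsum_eq_add_tsum_ite j, (hs T').tsum_eq_add_tsum_ite j] at h9
    have h13 : (1 : ℝ) / (m + 1) ≤ ε / 3 := by
      have h2 : (mc : ℝ) ≤ m := by exact_mod_cast hmc'
      rw [div_le_iff₀ (by positivity)]
      rw [div_lt_iff₀ hε] at hmc
      nlinarith
    have h14 : w j * hull (D j ∩ Big) (F j) T ≤ w j * hull (D j ∩ Big) (F j) T' +
        8 * (M T - M T') + w j * (ε / 3) + w j * (ε / 3) := by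
      simp only [hg'] at h8
      change g j T ≤ g j T' + _ + _ + _
      linarith
    have h15 : hull (D j ∩ Big) (F j) T ≤ hull (D j ∩ Big) (F j) T' +
        8 / w j * (M T - M T') + ε / 3 + ε / 3 := by
      have h16 : w j * (hull (D j ∩ Big) (F j) T' + 8 / w j * (M T - M T') + ε / 3 + ε / 3) =
          w j * hull (D j ∩ Big) (F j) T' + 8 * (M T - M T') + w j * (ε / 3) + w j * (ε / 3) := by
        field_simp
      exact le_of_mul_le_mul_left (by rw [h16]; exact h14) hwj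
    linarith

end Pool.Agent.PTree
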