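import Pool.Agent.PTree.Guard
import Pool.Agent.PTree.Stable

/-!
# The final argument
-/

set_option autoImplicit false

namespace Pool.Agent.PTree

open MeasureTheory Filter Topology
open scoped Classical

theorem final {n : ℕ} {D : Set StrSet} {Ψ : StrSet → Fin n → StrSet}
    (hpos : ∀ T ∈ D, ∀ c, Positive (Ψ T c)) {T : StrSet} (hT : T ∈ D) {C : ℝ} {L0 m0 : ℕ}
    (K : List Bool → ℕ → StrSet)
    (hK : ∀ (τ : List Bool) (m : ℕ), L0 ≤ τ.length → m0 ≤ m →
      K τ m ∈ D ∧ Sub (K τ m) (kill T τ m) ∧ Agree m T (K τ m))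
    (hloss : ∀ ε > 0, ∃ m1, ∀ (τ : List Bool) (m : ℕ), L0 ≤ τ.length → m1 ≤ m → ∀ c,
      coin.real (paths (Ψ T c) \ paths (Ψ (K τ m) c)) ≤ C * (1 / 2) ^ τ.length + ε) :
    ∃ G : Fin n → ℕ → ℕ → Bool, (∀ c, ManyPaths (Ψ T c) (G c)) ∧
      ∀ Φ : StrSet → (Fin n → ℕ → ℕ → Bool) → StrSet,
        ContinuousOn (fun p : StrSet × (Fin n → ℕ → ℕ → Bool) => Φ p.1 p.2)
          {p | p.1 ∈ D ∧ ∀ c, ManyPaths (Ψ p.1 c) (p.2 c)} →
        (∀ T' ∈ D, ∀ G' : Fin n → ℕ → ℕ → Bool, (∀ c, ManyPaths (Ψ T' c) (G' c)) →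
          ∀ τ, Φ T' G' τ = true → Extendible T' τ) →
        ¬ Perfect (Φ T G) := by
  set U : Ultrafilter ℕ := hyperfilter ℕ with hU
  have hUle : (U : Filter ℕ) ≤ atTop := by
    rw [hU, ← Nat.cofinite_eq_atTop]
    exact hyperfilter_le_cofinite
  set Ek : List Bool → Fin n → ℕ → Set (ℕ → Bool) := fun τ c m => paths (Ψ (K τ m) c) with hEk
  set μ : Measure (Fin n → ℕ → Bool) := Measure.pi fun _ => coin with hμ
  have : IsProbabilityMeasure μ := by rw [hμ]; infer_instance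
  have hev : ∀ c, MeasurePreserving (Function.eval c) μ coin := fun c =>
    measurePreserving_eval (fun _ : Fin n => coin) c
  set E : Set (Fin n → ℕ → Bool) := Set.univ.pi fun c => paths (Ψ T c) with hE
  set A : List Bool → Set (Fin n → ℕ → Bool) := fun τ =>
    ⋃ c, Function.eval c ⁻¹' (gset U (Ek τ c)) with hA
  have hEm : MeasurableSet E := MeasurableSet.univ_pi fun c => measurableSet_paths _
  have hAm : ∀ τ, MeasurableSet (A τ) := fun τ =>
    MeasurableSet.iUnion fun c => (measurableSet_gset U (Ek τ c)).preimage (hev c).measurable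
  have hE0 : μ E ≠ 0 := by
    rw [hμ, hE, Measure.pi_pi]
    refine Finset.prod_ne_zero_iff.2 fun c _ => ?_
    have h1 := ((positive_iff _).1 (hpos T hT c)).2
    intro h2
    rw [M, measureReal_def, h2] at h1
    simp at h1
  have hR : ∀ ω : Fin n → ℕ → Bool, μ {ω' | ∃ c, ω c = ω' c} = 0 := by
    intro ω
    have h1 : {ω' : Fin n → ℕ → Bool | ∃ c, ω c = ω' c} =
        ⋃ c, Function.eval c ⁻¹' ({ω c} : Set (ℕ → Bool)) := by
      ext ω'
      simp [eq_comm]
    rw [h1]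
    refine measure_iUnion_null fun c => ?_
    rw [(hev c).measure_preimage (measurableSet_singleton _).nullMeasurableSet]
    exact coin_singleton _
  have hbound : ∀ τ : List Bool, L0 ≤ τ.length →
      μ.real (E ∩ A τ) ≤ (n * C) * (1 / 2) ^ τ.length := by
    intro τ hτ
    have h1 : E ∩ A τ ⊆ ⋃ c ∈ (Finset.univ : Finset (Fin n)),
        Function.eval c ⁻¹' (paths (Ψ T c) ∩ gset U (Ek τ c)) := by
      rintro ω ⟨h2, h3⟩
      obtain ⟨c, hc⟩ := Set.mem_iUnion.1 h3
      exact Set.mem_biUnion (Finset.mem_coe.2 (Finset.mem_univ c)) ⟨h2 c trivial, hc⟩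
    calc μ.real (E ∩ A τ) ≤ μ.real (⋃ c ∈ (Finset.univ : Finset (Fin n)),
          Function.eval c ⁻¹' (paths (Ψ T c) ∩ gset U (Ek τ c))) :=
          measureReal_mono h1 (measure_ne_top _ _)
      _ ≤ ∑ c : Fin n, μ.real (Function.eval c ⁻¹' (paths (Ψ T c) ∩ gset U (Ek τ c))) :=
          measureReal_biUnion_finset_le _ _
      _ ≤ ∑ c : Fin n, C * (1 / 2) ^ τ.length := by
          refine Finset.sum_le_sum fun c _ => ?_
          have h2 : MeasurableSet (paths (Ψ T c) ∩ gset U (Ek τ c)) :=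
            (measurableSet_paths _).inter (measurableSet_gset _ _)
          rw [measureReal_def, (hev c).measure_preimage h2.nullMeasurableSet,
            ← measureReal_def]
          refine gset_bound hUle fun ε hε => ?_
          obtain ⟨m1, hm1⟩ := hloss ε hε
          exact ⟨m1, fun m hm => hm1 τ m hτ hm c⟩
      _ = (n * C) * (1 / 2) ^ τ.length := by
          simp only [Finset.sum_const, Finset.card_univ, Fintype.card_fin, nsmul_eq_mul]
          ring
  obtain ⟨w, hwE, hwR, hwS⟩ := static μ E A (fun ω ω' => ∃ c, ω c = ω' c) hEm hE0 hAm hR hbound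
  have hinj : ∀ c, Function.Injective fun i => w i c := by
    intro c i j hij
    rcases lt_trichotomy i j with h | h | h
    · exact absurd ⟨c, hij⟩ (hwR i j h)
    · exact h
    · exact absurd ⟨c, hij.symm⟩ (hwR j i h)
  refine ⟨fun c i => w i c, fun c => ⟨hinj c, fun i l => hwE i c trivial l⟩, ?_⟩
  intro Φ hΦ hsound hperf
  set G : Fin n → ℕ → ℕ → Bool := fun c i => w i c with hG
  obtain ⟨τ, hτL, hτS, hτA⟩ := hwS _ hperf
  -- the approximating instances
  have hfind : ∀ u : ℕ, ∃ m, u ≤ m ∧ m0 ≤ m ∧ ∀ c : Fin n, ∀ i ∈ Finset.range u,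
      coin (Ek τ c m ∩ cyl (seg (G c i) u)) ≠ 0 := by
    intro u
    have h1 : ∀ᶠ m in (U : Filter ℕ), u ≤ m := hUle (eventually_ge_atTop u)
    have h2 : ∀ᶠ m in (U : Filter ℕ), m0 ≤ m := hUle (eventually_ge_atTop m0)
    have h3 : ∀ᶠ m in (U : Filter ℕ), ∀ c : Fin n, ∀ i ∈ Finset.range u,
        coin (Ek τ c m ∩ cyl (seg (G c i) u)) ≠ 0 := by
      rw [Filter.eventually_all]
      intro c
      rw [Filter.eventually_all_finset]
      intro i _
      have h4 : ¬ gd U (Ek τ c) (seg (G c i) u) := by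
        intro h5
        exact hτA i (Set.mem_iUnion.2 ⟨c, u, h5⟩)
      exact Ultrafilter.eventually_not.2 h4
    obtain ⟨m, hm⟩ := (h1.and (h2.and h3)).exists
    exact ⟨m, hm.1, hm.2.1, hm.2.2⟩
  choose m hmu hm0 hm using hfind
  have hchoice : ∀ (u : ℕ) (c : Fin n), ∃ x : ℕ → ℕ → Bool, Function.Injective x ∧
      ∀ i, x i ∈ Ek τ c (m u) ∧ (i < u → x i ∈ cyl (seg (G c i) u)) := by
    intro u c
    obtain ⟨x, hx1, hx2⟩ := exists_injective_choice
      (fun i => if i < u then Ek τ c (m u) ∩ cyl (seg (G c i) u) else Ek τ c (m u)) (by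
        intro i
        by_cases hi : i < u
        · simp only [hi, if_true]
          exact infinite_of_ne_zero (hm u c i (Finset.mem_range.2 hi))
        · simp only [hi, if_false]
          refine infinite_of_ne_zero ?_
          have h1 := ((positive_iff _).1 (hpos _ (hK τ (m u) hτL (hm0 u)).1 c)).2
          intro h2
          rw [M, measureReal_def, h2] at h1
          simp at h1)
    refine ⟨x, hx1, fun i => ?_⟩
    have h1 := hx2 i
    by_cases hi : i < u
    · simp only [hi, if_true] at h1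
      exact ⟨h1.1, fun _ => h1.2⟩
    · simp only [hi, if_false] at h1
      exact ⟨h1, fun h => absurd h hi⟩
  choose x hx1 hx2 using hchoice
  have hDom : ∀ u, K τ (m u) ∈ D ∧ ∀ c, ManyPaths (Ψ (K τ (m u)) c) (x u c) := fun u =>
    ⟨(hK τ (m u) hτL (hm0 u)).1, fun c => ⟨hx1 u c, fun i l => (hx2 u c i).1 l⟩⟩
  have hlim : Tendsto (fun u => ((K τ (m u), x u) : StrSet × (Fin n → ℕ → ℕ → Bool))) atTop
      (𝓝 (T, G)) := by
    rw [nhds_prod_eq]
    refine Tendsto.prodMk ?_ ?_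
    · rw [tendsto_pi_nhds]
      intro σ
      refine tendsto_const_nhds.congr' ?_
      filter_upwards [eventually_gt_atTop σ.length] with u hu
      exact ((hK τ (m u) hτL (hm0 u)).2.2 σ (lt_of_lt_of_le hu (hmu u))).symm
    · rw [tendsto_pi_nhds]
      intro c
      rw [tendsto_pi_nhds]
      intro i
      rw [tendsto_pi_nhds]
      intro j
      refine tendsto_const_nhds.congr' ?_
      filter_upwards [eventually_gt_atTop i, eventually_gt_atTop j] with u hi hj
      have h1 := (hx2 u c i).2 hi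
      have h2 : seg (x u c i) u = seg (G c i) u := by
        have h3 : seg (x u c i) (seg (G c i) u).length = seg (G c i) u := h1
        rwa [seg_length] at h3
      exact ((seg_eq_iff _ _ _).1 h2 j hj).symm
  have hTG : ((T, G) : StrSet × (Fin n → ℕ → ℕ → Bool)) ∈
      {p : StrSet × (Fin n → ℕ → ℕ → Bool) | p.1 ∈ D ∧ ∀ c, ManyPaths (Ψ p.1 c) (p.2 c)} :=
    ⟨hT, fun c => ⟨hinj c, fun i l => hwE i c trivial l⟩⟩
  have h1 : Tendsto (fun u => Φ (K τ (m u)) (x u)) atTop (𝓝 (Φ T G)) := by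
    have h2 := hΦ (T, G) hTG
    have h3 : Tendsto (fun u => ((K τ (m u), x u) : StrSet × (Fin n → ℕ → ℕ → Bool))) atTop
        (𝓝[{p : StrSet × (Fin n → ℕ → ℕ → Bool) |
          p.1 ∈ D ∧ ∀ c, ManyPaths (Ψ p.1 c) (p.2 c)}] (T, G)) :=
      tendsto_nhdsWithin_iff.2 ⟨hlim, Filter.Eventually.of_forall hDom⟩
    exact Tendsto.comp h2 h3
  rw [tendsto_pi_nhds] at h1
  have h2 := h1 τ
  rw [hτS, nhds_discrete, tendsto_pure] at h2
  obtain ⟨u, hu⟩ := h2.exists
  obtain ⟨ρ, hρ1, hρ2, hρ3⟩ := hsound _ (hDom u).1 (x u) (hDom u).2 τ hu (m u)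
  exact kill_dead (hK τ (m u) hτL (hm0 u)).2.1 hρ1 hρ2 hρ3

/-- **Main theorem.** -/
theorem main (n : ℕ → ℕ) (D : ℕ → Set StrSet)
    (Ψ : (j : ℕ) → StrSet → Fin (n j) → StrSet)
    (hΨ : ∀ j, ContinuousOn (Ψ j) (D j))
    (hpos : ∀ j, ∀ T ∈ D j, ∀ c, Positive (Ψ j T c)) :
    ∃ T, Positive T ∧ ∀ j, T ∈ D j →
      ∃ G : Fin (n j) → ℕ → ℕ → Bool, (∀ c, ManyPaths (Ψ j T c) (G c)) ∧
      ∀ Φ : StrSet → (Fin (n j) → ℕ → ℕ → Bool) → StrSet,
        ContinuousOn (fun p : StrSet × (Fin (n j) → ℕ → ℕ → Bool) => Φ p.1 p.2)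
          {p | p.1 ∈ D j ∧ ∀ c, ManyPaths (Ψ j p.1 c) (p.2 c)} →
        (∀ T' ∈ D j, ∀ G' : Fin (n j) → ℕ → ℕ → Bool, (∀ c, ManyPaths (Ψ j T' c) (G' c)) →
          ∀ τ, Φ T' G' τ = true → Extendible T' τ) →
        ¬ Perfect (Φ T G) := by
  obtain ⟨T, hTt, hTM, hst⟩ := stable D
    (fun j T => ∑ c, coin.real (paths (Ψ j T c))) (fun j => n j)
    (fun j T => Finset.sum_nonneg fun _ _ => measureReal_nonneg)
    (fun j T => by
      refine (Finset.sum_le_sum (g := fun _ => (1 : ℝ)) fun c _ => measureReal_le_one).trans ?_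
      simp)
  refine ⟨T, (positive_iff T).2 ⟨hTt, hTM⟩, fun j hj => ?_⟩
  obtain ⟨a, m0, C, haM, hC, pick, hpick, hF⟩ := hst j hj
  obtain ⟨L0, h1, h2⟩ := loss (hΨ j) (fun T hT c => ((positive_iff _).1 (hpos j T hT c)).1) hj
    hTt haM hC hpick hF
  exact final (hpos j) hj (fun τ m => pick (kill T τ m) m) h1 h2

end Pool.Agent.PTree
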