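import Pool.Agent.PTree.Static

/-!
# The static lemma
-/

set_option autoImplicit false

namespace Pool.Agent.PTree

open MeasureTheory Filter Topology
open scoped Classical

section

variable {Ω : Type*} [MeasurableSpace Ω] (μ : Measure Ω) [IsProbabilityMeasure μ]
variable (E : Set Ω) (A : List Bool → Set Ω) (K : ℕ) (R : Ω → Ω → Prop)

/-- A stage of the construction. -/
structure St (Ω : Type*) where
  /-- reservoir -/
  Q : Set Ω
  /-- the levels which are still available -/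
  I : Set ℕ
  /-- the nodes above which the reservoir may guard -/
  P : ℕ → Finset (List Bool)
  /-- lower bound of the measure -/
  β : ℝ
  /-- the points which must not be chosen any more -/
  N : Set Ω

/-- The invariant. -/
structure Inv (k : ℕ) (s : St Ω) : Prop where
  Qm : MeasurableSet s.Q
  QE : s.Q ⊆ E
  Iinf : s.I.Infinite
  βpos : 0 < s.β
  pos : ∀ l ∈ s.I, s.β ≤ μ.real (s.Q ∩ Bs E A K s.P k l)
  card : ∀ l0 < k, (s.P l0).card ≤ K
  null : μ s.N = 0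

/-- One step. -/
structure Rel (k : ℕ) (s s' : St Ω) (lam : ℕ) (ω : Ω) : Prop where
  Q : s'.Q ⊆ s.Q
  Q' : s'.Q ⊆ Bs E A K s'.P (k + 1) lam
  I : s'.I ⊆ s.I
  lamI : lam ∈ s.I
  klam : k ≤ lam
  P : ∀ l0 < k, s'.P l0 = s.P l0
  ωQ : ω ∈ s'.Q
  ωN : ω ∉ s.N
  ωI : ∀ l ∈ s'.I, ω ∈ Bs E A K s'.P (k + 1) l
  N : s.N ⊆ s'.N
  NR : ∀ ω', R ω ω' → ω' ∈ s'.N

theorem step (hE : MeasurableSet E) (hA : ∀ τ, MeasurableSet (A τ))
    (hR : ∀ ω, μ {ω' | R ω ω'} = 0) {k : ℕ} {s : St Ω} (hs : Inv μ E A K k s) :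
    ∃ (s' : St Ω) (lam : ℕ) (ω : Ω), Inv μ E A K (k + 1) s' ∧ Rel E A K R k s s' lam ω := by
  -- choose `P k`
  set X : ℕ → Finset (List Bool) → Set Ω := fun l p =>
    {ω | ω ∈ s.Q ∩ Bs E A K s.P k l ∧ (Gd A l ω).image (List.take k) = p} with hX
  set β1 : ℝ := s.β / 2 ^ 2 ^ k with hβ1
  have hβ1pos : 0 < β1 := div_pos hs.βpos (by positivity)
  have hp : ∀ l ∈ s.I, k ≤ l → ∃ p ∈ (strs k).powerset, β1 ≤ μ.real (X l p) := by
    intro l hl hkl
    by_contra hcon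
    push Not at hcon
    have h1 : s.Q ∩ Bs E A K s.P k l ⊆ ⋃ p ∈ (strs k).powerset, X l p := by
      intro ω hω
      simp only [Set.mem_iUnion, exists_prop]
      refine ⟨(Gd A l ω).image (List.take k), ?_, hω, rfl⟩
      rw [Finset.mem_powerset]
      intro σ hσ
      obtain ⟨τ, hτ, rfl⟩ := Finset.mem_image.1 hσ
      rw [mem_strs, List.length_take, (mem_Gd A |>.1 hτ).1]
      omega
    have h2 := hs.pos l hl
    have h3 : μ.real (⋃ p ∈ (strs k).powerset, X l p) ≤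
        ∑ p ∈ (strs k).powerset, μ.real (X l p) := measureReal_biUnion_finset_le _ _
    have h4 : ∑ p ∈ (strs k).powerset, μ.real (X l p) < ∑ p ∈ (strs k).powerset, β1 :=
      Finset.sum_lt_sum_of_nonempty ⟨∅, by simp⟩ hcon
    rw [Finset.sum_const, Finset.card_powerset, card_strs, nsmul_eq_mul] at h4
    have h5 : ((2 ^ 2 ^ k : ℕ) : ℝ) * β1 = s.β := by
      rw [hβ1]; push_cast; field_simp
    rw [h5] at h4
    have h6 := measureReal_mono h1 (measure_ne_top μ _)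
    linarith
  have hI1 : (s.I \ {l | l < k}).Infinite := hs.Iinf.sdiff (Set.finite_lt_nat k)
  have hfib : ∃ p ∈ (strs k).powerset,
      {l | l ∈ s.I \ {l | l < k} ∧ β1 ≤ μ.real (X l p)}.Infinite := by
    by_contra hcon
    push Not at hcon
    apply hI1
    have h1 : s.I \ {l | l < k} ⊆ ⋃ p ∈ (strs k).powerset,
        {l | l ∈ s.I \ {l | l < k} ∧ β1 ≤ μ.real (X l p)} := by
      intro l hl
      obtain ⟨p, hp1, hp2⟩ := hp l hl.1 (not_lt.1 hl.2)
      exact Set.mem_biUnion hp1 ⟨hl, hp2⟩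
    exact (Set.Finite.biUnion (Finset.finite_toSet _) fun p hp =>
      hcon p hp).subset h1
  obtain ⟨p, hpp, hI1⟩ := hfib
  set I1 : Set ℕ := {l | l ∈ s.I \ {l | l < k} ∧ β1 ≤ μ.real (X l p)} with hI1def
  set P' : ℕ → Finset (List Bool) := Function.update s.P k p with hP'
  have hP'lt : ∀ l0 < k, P' l0 = s.P l0 := fun l0 h => by
    rw [hP', Function.update_of_ne h.ne]
  have hpcard : p.card ≤ K := by
    obtain ⟨l, hl⟩ := hI1.nonempty
    have h1 : (X l p).Nonempty := by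
      by_contra h2
      rw [Set.not_nonempty_iff_eq_empty] at h2
      have h3 := hl.2
      rw [h2, measureReal_empty] at h3
      linarith
    obtain ⟨ω, hω⟩ := h1
    rw [← hω.2]
    exact Finset.card_image_le.trans hω.1.2.2.1
  have hXsub : ∀ l, X l p ⊆ s.Q ∩ Bs E A K P' (k + 1) l := by
    intro l ω hω
    refine ⟨hω.1.1, hω.1.2.1, hω.1.2.2.1, fun l0 hl0 τ hτ => ?_⟩
    rcases Nat.lt_succ_iff_lt_or_eq.1 hl0 with h | h
    · rw [hP'lt l0 h]
      exact hω.1.2.2.2 l0 h τ hτ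
    · subst h
      rw [hP', Function.update_self, ← hω.2]
      exact Finset.mem_image_of_mem _ hτ
  -- choose the level
  set D : ℕ → Set Ω := fun l => s.Q ∩ Bs E A K P' (k + 1) l with hD
  have hDm : ∀ l, MeasurableSet (D l) := fun l =>
    hs.Qm.inter (measurableSet_Bs E A K hE hA P' (k + 1) l)
  have hDβ : ∀ l ∈ I1, β1 ≤ μ.real (D l) := fun l hl =>
    hl.2.trans (measureReal_mono (hXsub l))
  obtain ⟨lam, hlam, I2, hI2sub, hI2, β2, hβ2, hI2β⟩ := inter_lemma μ hDm hI1 hβ1pos hDβ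
  -- choose the point
  obtain ⟨ω, hωN, hωI⟩ := limsup_lemma μ (fun l => (hDm lam).inter (hDm l)) hI2 hβ2 hI2β hs.null
  have hωlam : ω ∈ D lam := by
    obtain ⟨l, hl⟩ := hωI.nonempty
    exact hl.2.1
  refine ⟨⟨D lam, {l | l ∈ I2 ∧ ω ∈ D lam ∩ D l}, P', β2, s.N ∪ {ω' | R ω ω'}⟩, lam, ω,
    ⟨hDm lam, ?_, hωI, hβ2, ?_, ?_, ?_⟩, ⟨?_, ?_, ?_, ?_, ?_, ?_, ?_, ?_, ?_, ?_, ?_⟩⟩
  · exact fun ω' hω' => hs.QE hω'.1
  · rintro l ⟨hl, -⟩
    refine (hI2β l hl).trans (measureReal_mono ?_)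
    rintro ω' ⟨h1, h2⟩
    exact ⟨h1, h2.2⟩
  · intro l0 hl0
    change (P' l0).card ≤ K
    rcases Nat.lt_succ_iff_lt_or_eq.1 hl0 with h | h
    · rw [hP'lt l0 h]
      exact hs.card l0 h
    · subst h
      rw [hP', Function.update_self]
      exact hpcard
  · exact measure_union_null hs.null (hR ω)
  · exact fun ω' hω' => hω'.1
  · exact fun ω' hω' => hω'.2
  · rintro l ⟨hl, -⟩
    exact (hI2sub hl).1.1
  · exact hlam.1.1
  · exact not_lt.1 hlam.1.2
  · exact hP'lt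
  · exact hωlam
  · exact hωN
  · rintro l ⟨-, hl⟩
    exact hl.2.2
  · exact Set.subset_union_left
  · exact fun ω' h => Or.inr h

/-- **Static lemma.** -/
theorem static (hE : MeasurableSet E) (hpos : μ E ≠ 0) (hA : ∀ τ, MeasurableSet (A τ))
    (hR : ∀ ω, μ {ω' | R ω ω'} = 0) {C : ℝ} {L0 : ℕ}
    (hC : ∀ τ : List Bool, L0 ≤ τ.length → μ.real (E ∩ A τ) ≤ C * (1 / 2) ^ τ.length) :
    ∃ w : ℕ → Ω, (∀ i, w i ∈ E) ∧ (∀ i j, i < j → ¬ R (w i) (w j)) ∧
      ∀ S : StrSet, Perfect S → ∃ τ, L0 ≤ τ.length ∧ S τ = true ∧ ∀ i, w i ∉ A τ := by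
  have hEpos : 0 < μ.real E := ENNReal.toReal_pos hpos (measure_ne_top _ _)
  obtain ⟨K, hK⟩ := exists_nat_gt (2 * C / μ.real E)
  -- the initial state
  have h0 : Inv μ E A K 0 ⟨E, {l | L0 ≤ l}, fun _ => ∅, μ.real E / 2, ∅⟩ := by
    refine ⟨hE, subset_rfl, Set.infinite_of_injective_forall_mem (f := fun n => L0 + n)
      (fun a b h => by simpa using h) (fun n => by simp), by positivity, ?_, by simp, by simp⟩
    intro l hl
    have h1 := markov μ E A K hA hC hl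
    have h2 : E ∩ Bs E A K (fun _ => ∅) 0 l = E \ {ω | ω ∈ E ∧ ¬ (Gd A l ω).card ≤ K} := by
      ext ω
      simp only [Bs, Set.mem_inter_iff, Set.mem_ofPred_eq, Set.mem_sdiff, not_and, not_not]
      constructor
      · rintro ⟨h3, -, h4, -⟩
        exact ⟨h3, fun _ => h4⟩
      · rintro ⟨h3, h4⟩
        exact ⟨h3, h3, h4 h3, fun l0 h5 => absurd h5 (Nat.not_lt_zero _)⟩
    change μ.real E / 2 ≤ μ.real (E ∩ Bs E A K (fun _ => ∅) 0 l)
    rw [h2]
    have h5 := le_measureReal_sdiff (μ := μ) (s₁ := E)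
      (s₂ := {ω | ω ∈ E ∧ ¬ (Gd A l ω).card ≤ K})
    have h6 : μ.real {ω | ω ∈ E ∧ ¬ (Gd A l ω).card ≤ K} ≤ μ.real E / 2 := by
      rw [div_lt_iff₀ hEpos] at hK
      have h7 : (K : ℝ) * μ.real {ω | ω ∈ E ∧ ¬ (Gd A l ω).card ≤ K} ≤ C := by
        refine le_trans ?_ h1
        gcongr
        linarith
      by_contra h8
      have h8' := not_le.1 h8
      have h9 : 0 ≤ (K : ℝ) := Nat.cast_nonneg K
      nlinarith
    linarith
  -- the sequence of states
  have hstep : ∀ (k : ℕ) (s : {s : St Ω // Inv μ E A K k s}),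
      ∃ (t : {s : St Ω // Inv μ E A K (k + 1) s}) (lam : ℕ) (ω : Ω),
        Rel E A K R k s.1 t.1 lam ω := by
    intro k s
    obtain ⟨s', lam, ω, h1, h2⟩ := step μ E A K R hE hA hR s.2
    exact ⟨⟨s', h1⟩, lam, ω, h2⟩
  choose nx lm wt hrel using hstep
  set sq : (k : ℕ) → {s : St Ω // Inv μ E A K k s} := fun k =>
    Nat.rec (motive := fun k => {s : St Ω // Inv μ E A K k s}) ⟨_, h0⟩ (fun k s => nx k s) k
    with hsq
  have hsucc : ∀ k, sq (k + 1) = nx k (sq k) := fun k => rfl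
  set lam : ℕ → ℕ := fun k => lm k (sq k) with hlam
  set w : ℕ → Ω := fun k => wt k (sq k) with hw
  have hr : ∀ k, Rel E A K R k (sq k).1 (sq (k + 1)).1 (lam k) (w k) := by
    intro k
    rw [hsucc]
    exact hrel k (sq k)
  have hQ : ∀ {i j}, i ≤ j → (sq j).1.Q ⊆ (sq i).1.Q := by
    intro i j hij
    exact antitone_nat_of_succ_le (f := fun k => (sq k).1.Q) (fun k => (hr k).Q) hij
  have hI : ∀ {i j}, i ≤ j → (sq j).1.I ⊆ (sq i).1.I := by
    intro i j hij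
    exact antitone_nat_of_succ_le (f := fun k => (sq k).1.I) (fun k => (hr k).I) hij
  have hN : ∀ {i j}, i ≤ j → (sq i).1.N ⊆ (sq j).1.N := by
    intro i j hij
    exact monotone_nat_of_le_succ (f := fun k => (sq k).1.N) (fun k => (hr k).N) hij
  have hP : ∀ l0 k, l0 < k → (sq k).1.P l0 = (sq (l0 + 1)).1.P l0 := by
    intro l0 k hk
    induction k, hk using Nat.le_induction with
    | base => rfl
    | succ k hk ih => rw [(hr k).P l0 hk, ih]
  set P : ℕ → Finset (List Bool) := fun l0 => (sq (l0 + 1)).1.P l0 with hPdef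
  have hPcard : ∀ l0, (P l0).card ≤ K := fun l0 => (sq (l0 + 1)).2.card l0 (Nat.lt_succ_self l0)
  have key : ∀ j k, (Gd A (lam k) (w j)).card ≤ K ∧
      ∀ l0, l0 ≤ j → l0 ≤ k → ∀ τ ∈ Gd A (lam k) (w j), τ.take l0 ∈ P l0 := by
    intro j k
    rcases le_or_gt k j with hkj | hjk
    · have h1 : w j ∈ Bs E A K (sq (k + 1)).1.P (k + 1) (lam k) :=
        (hr k).Q' (hQ (Nat.succ_le_succ hkj) (hr j).ωQ)
      refine ⟨h1.2.1, fun l0 _ hl0 τ hτ => ?_⟩
      have h2 := h1.2.2 l0 (Nat.lt_succ_of_le hl0) τ hτ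
      rwa [hP l0 (k + 1) (Nat.lt_succ_of_le hl0)] at h2
    · have h1 : w j ∈ Bs E A K (sq (j + 1)).1.P (j + 1) (lam k) :=
        (hr j).ωI _ (hI hjk (hr k).lamI)
      refine ⟨h1.2.1, fun l0 hl0 _ τ hτ => ?_⟩
      have h2 := h1.2.2 l0 (Nat.lt_succ_of_le hl0) τ hτ
      rwa [hP l0 (j + 1) (Nat.lt_succ_of_le hl0)] at h2
  refine ⟨w, fun i => (sq (i + 1)).2.QE (hr i).ωQ, fun i j hij hRij => ?_, fun S hS => ?_⟩
  · exact (hr j).ωN (hN hij ((hr i).NR _ hRij))
  · by_contra hcon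
    push Not at hcon
    obtain ⟨L, hL⟩ := hS.width (K + 1) hS.nil
    have h1 := hL L le_rfl
    have h2 : ∃ τ₀ ∈ above S [] L, τ₀ ∉ P L := by
      by_contra h3
      push Not at h3
      have h4 := Finset.card_le_card h3
      have h5 := hPcard L
      omega
    obtain ⟨τ₀, hτ₀, hτ₀P⟩ := h2
    obtain ⟨hτ₀L, hτ₀S, -⟩ := mem_above.1 hτ₀
    obtain ⟨L', hL'⟩ := hS.width (L * K + 1) hτ₀S
    set k := max (max L L') L0 with hk
    have hkL : L ≤ k := le_trans (le_max_left _ _) (le_max_left _ _)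
    have hkL' : L' ≤ k := le_trans (le_max_right _ _) (le_max_left _ _)
    have hkL0 : L0 ≤ k := le_max_right _ _
    have hklam : k ≤ lam k := (hr k).klam
    have h6 := hL' (lam k) (hkL'.trans hklam)
    have h7 : above S τ₀ (lam k) ⊆ (Finset.range L).biUnion fun i => Gd A (lam k) (w i) := by
      intro τ hτ
      obtain ⟨h8, h9, h10⟩ := mem_above.1 hτ
      obtain ⟨i, hi⟩ := hcon τ (by omega) h9
      have h11 : τ ∈ Gd A (lam k) (w i) := (mem_Gd A).2 ⟨h8, hi⟩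
      rw [Finset.mem_biUnion]
      refine ⟨i, Finset.mem_range.2 ?_, h11⟩
      by_contra h12
      push Not at h12
      have h13 := (key i k).2 L h12 hkL τ h11
      apply hτ₀P
      rw [List.prefix_iff_eq_take, hτ₀L] at h10
      rwa [← h10] at h13
    have h14 := (Finset.card_le_card h7).trans Finset.card_biUnion_le
    have h15 : ∑ i ∈ Finset.range L, (Gd A (lam k) (w i)).card ≤ L * K := by
      refine (Finset.sum_le_sum fun i _ => (key i k).1).trans ?_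
      simp
    omega

end

end Pool.Agent.PTree
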