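import Pool.Agent.PTree.Kill
import Pool.Agent.PTree.Static2

/-!
# Guards
-/

set_option autoImplicit false

namespace Pool.Agent.PTree

open MeasureTheory Filter Topology
open scoped Classical

/-- The cylinder of `σ` is null in almost all of the sets `Ek m`. -/
def gd (U : Ultrafilter ℕ) (Ek : ℕ → Set (ℕ → Bool)) (σ : List Bool) : Prop :=
  ∀ᶠ m in (U : Filter ℕ), coin (Ek m ∩ cyl σ) = 0

/-- The guarded reals. -/
def gset (U : Ultrafilter ℕ) (Ek : ℕ → Set (ℕ → Bool)) : Set (ℕ → Bool) :=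
  {x | ∃ l, gd U Ek (seg x l)}

theorem cyl_subset {σ σ' : List Bool} (h : σ <+: σ') : cyl σ' ⊆ cyl σ := by
  intro x hx
  have h1 : seg x σ'.length = σ' := hx
  rw [← h1] at h
  exact seg_eq_of_prefix h

theorem gd_mono {U : Ultrafilter ℕ} {Ek : ℕ → Set (ℕ → Bool)} {σ σ' : List Bool}
    (h : σ <+: σ') (hg : gd U Ek σ) : gd U Ek σ' := by
  refine hg.mono fun m hm => ?_
  exact measure_mono_null (Set.inter_subset_inter_right _ (cyl_subset h)) hm

theorem gset_eq (U : Ultrafilter ℕ) (Ek : ℕ → Set (ℕ → Bool)) :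
    gset U Ek = ⋃ l, {x | gd U Ek (seg x l)} := by
  ext x
  simp [gset]

theorem measurableSet_gset (U : Ultrafilter ℕ) (Ek : ℕ → Set (ℕ → Bool)) :
    MeasurableSet (gset U Ek) := by
  rw [gset_eq]
  exact MeasurableSet.iUnion fun l => measurableSet_seg l (gd U Ek)

theorem gset_bound {U : Ultrafilter ℕ} (hU : (U : Filter ℕ) ≤ atTop)
    {Ek : ℕ → Set (ℕ → Bool)} {E : Set (ℕ → Bool)} {b : ℝ}
    (h : ∀ ε > 0, ∃ m1, ∀ m, m1 ≤ m → coin.real (E \ Ek m) ≤ b + ε) :
    coin.real (E ∩ gset U Ek) ≤ b := by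
  have h1 : ∀ l, coin.real (E ∩ {x | gd U Ek (seg x l)}) ≤ b := by
    intro l
    refine le_of_forall_pos_le_add fun ε hε => ?_
    obtain ⟨m1, hm1⟩ := h ε hε
    have h2 : ∀ᶠ m in (U : Filter ℕ), m1 ≤ m := hU (eventually_ge_atTop m1)
    have h3 : ∀ᶠ m in (U : Filter ℕ), ∀ σ ∈ (strs l).filter (gd U Ek),
        coin (Ek m ∩ cyl σ) = 0 := by
      rw [Filter.eventually_all_finset]
      intro σ hσ
      exact (Finset.mem_filter.1 hσ).2
    obtain ⟨m, hm, hm'⟩ := (h2.and h3).exists
    have h4 : E ∩ {x | gd U Ek (seg x l)} ⊆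
        (E \ Ek m) ∪ ⋃ σ ∈ (strs l).filter (gd U Ek), Ek m ∩ cyl σ := by
      rintro x ⟨hx, hxg⟩
      by_cases hxm : x ∈ Ek m
      · right
        simp only [Set.mem_iUnion, exists_prop]
        exact ⟨seg x l, Finset.mem_filter.2 ⟨by simp, hxg⟩, hxm, mem_cyl_seg x l⟩
      · left
        exact ⟨hx, hxm⟩
    have h5 : coin (⋃ σ ∈ (strs l).filter (gd U Ek), Ek m ∩ cyl σ) = 0 := by
      exact (measure_biUnion_null_iff (Finset.countable_toSet _)).2 hm'
    calc coin.real (E ∩ {x | gd U Ek (seg x l)}) ≤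
          coin.real ((E \ Ek m) ∪ ⋃ σ ∈ (strs l).filter (gd U Ek), Ek m ∩ cyl σ) :=
          measureReal_mono h4
      _ ≤ coin.real (E \ Ek m) +
          coin.real (⋃ σ ∈ (strs l).filter (gd U Ek), Ek m ∩ cyl σ) :=
          measureReal_union_le _ _
      _ = coin.real (E \ Ek m) := by
          rw [measureReal_def coin (⋃ σ ∈ (strs l).filter (gd U Ek), Ek m ∩ cyl σ), h5]
          simp
      _ ≤ b + ε := hm1 m hm
  have h2 : Tendsto (fun l => coin.real (E ∩ {x | gd U Ek (seg x l)})) atTop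
      (𝓝 (coin.real (E ∩ gset U Ek))) := by
    have h3 : Monotone fun l => E ∩ {x | gd U Ek (seg x l)} := by
      intro l l' hll' x hx
      exact ⟨hx.1, gd_mono (seg_prefix x hll') hx.2⟩
    have h4 := tendsto_measure_iUnion_atTop (μ := coin) h3
    have h5 : ⋃ l, E ∩ {x | gd U Ek (seg x l)} = E ∩ gset U Ek := by
      rw [gset_eq, Set.inter_iUnion]
    rw [h5] at h4
    exact (ENNReal.tendsto_toReal (measure_ne_top _ _)).comp h4
  exact le_of_tendsto' h2 h1

/-- Infinite sets have an injective choice function. -/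
theorem exists_injective_choice {X : Type*} (Z : ℕ → Set X) (hZ : ∀ i, (Z i).Infinite) :
    ∃ x : ℕ → X, Function.Injective x ∧ ∀ i, x i ∈ Z i := by
  choose f hf hf' using fun (i : ℕ) (s : Finset X) => (hZ i).exists_notMem_finset s
  set S : ℕ → Finset X := fun i => Nat.rec ∅ (fun i s => insert (f i s) s) i with hS
  have hSucc : ∀ i, S (i + 1) = insert (f i (S i)) (S i) := fun i => rfl
  have hmono : Monotone S := monotone_nat_of_le_succ fun i => by
    rw [hSucc]
    exact Finset.subset_insert _ _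
  have hne : ∀ i j, i < j → f i (S i) ≠ f j (S j) := by
    intro i j hij heq
    have h1 : f i (S i) ∈ S j := hmono (Nat.succ_le_of_lt hij) (by
      rw [hSucc]
      exact Finset.mem_insert_self _ _)
    rw [heq] at h1
    exact hf' j (S j) h1
  refine ⟨fun i => f i (S i), fun i j hij => ?_, fun i => hf i (S i)⟩
  rcases lt_trichotomy i j with h | h | h
  · exact absurd hij (hne i j h)
  · exact h
  · exact absurd hij.symm (hne j i h)

theorem infinite_of_ne_zero {Z : Set (ℕ → Bool)} (h : coin Z ≠ 0) : Z.Infinite := by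
  intro hfin
  apply h
  rw [← Set.biUnion_of_singleton Z, measure_biUnion_null_iff hfin.countable]
  exact fun x _ => coin_singleton x

end Pool.Agent.PTree
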