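import Pool.Agent.PTree.Basic

/-!
# Upper semicontinuous hulls, countable sums, limits of trees
-/

set_option autoImplicit false

namespace Pool.Agent.PTree

open MeasureTheory Filter Topology
open scoped Classical

theorem mem_paths_full : paths (fun _ => true) = Set.univ := by
  ext x
  simp [paths]

theorem M_full : M (fun _ => true) = 1 := by
  rw [M, mem_paths_full]
  exact probReal_univ

theorem Agree.symm {m : ℕ} {T T' : StrSet} (h : Agree m T T') : Agree m T' T :=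
  fun σ hσ => (h σ hσ).symm

/-- The trees of the class `X` near `T` and below it. -/
def Near (X : Set StrSet) (T : StrSet) (m : ℕ) : Set StrSet :=
  {T' | T' ∈ X ∧ Sub T' T ∧ Agree m T T'}

theorem Near.subset {X : Set StrSet} {T T' : StrSet} {m : ℕ} (h : Sub T' T)
    (h' : Agree m T T') : Near X T' m ⊆ Near X T m :=
  fun _ hT => ⟨hT.1, hT.2.1.trans h, h'.trans hT.2.2⟩

/-- The upper semicontinuous hull of `F` along the class `X`. -/
noncomputable def hull (X : Set StrSet) (F : StrSet → ℝ) (T : StrSet) : ℝ :=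
  ⨅ m : ℕ, sSup (F '' Near X T m)

section

variable {X : Set StrSet} {F : StrSet → ℝ} {B : ℝ} (h0 : ∀ T, 0 ≤ F T) (hB : ∀ T, F T ≤ B)

include hB in
theorem bdd_image (S : Set StrSet) : BddAbove (F '' S) := by
  refine ⟨B, ?_⟩
  rintro _ ⟨T, -, rfl⟩
  exact hB T

include h0 in
theorem sSup_nonneg' (S : Set StrSet) : 0 ≤ sSup (F '' S) := by
  refine Real.sSup_nonneg ?_
  rintro _ ⟨T, -, rfl⟩
  exact h0 T

include h0 in
theorem hull_nonneg (T : StrSet) : 0 ≤ hull X F T :=
  Real.iInf_nonneg fun _ => sSup_nonneg' h0 _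

include h0 in
theorem hull_le_sSup (T : StrSet) (m : ℕ) : hull X F T ≤ sSup (F '' Near X T m) := by
  refine ciInf_le ⟨0, ?_⟩ m
  rintro _ ⟨m, rfl⟩
  exact sSup_nonneg' h0 _

include h0 hB in
theorem hull_le (T : StrSet) : hull X F T ≤ B := by
  refine (hull_le_sSup h0 T 0).trans (Real.sSup_le ?_ ((h0 T).trans (hB T)))
  rintro _ ⟨T, -, rfl⟩
  exact hB T

include h0 hB in
theorem hull_usc (T : StrSet) {ε : ℝ} (hε : 0 < ε) :
    ∃ m, ∀ T', Sub T' T → Agree m T T' → hull X F T' ≤ hull X F T + ε := by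
  obtain ⟨m, hm⟩ := exists_lt_of_ciInf_lt (show hull X F T < hull X F T + ε by linarith)
  refine ⟨m, fun T' h h' => ?_⟩
  refine (hull_le_sSup h0 T' m).trans (le_trans ?_ hm.le)
  refine Real.sSup_le ?_ (sSup_nonneg' h0 _)
  rintro _ ⟨T'', hT'', rfl⟩
  exact le_csSup (bdd_image hB _) ⟨T'', Near.subset h h' hT'', rfl⟩

include hB in
theorem le_hull {T : StrSet} (hT : T ∈ X) : F T ≤ hull X F T :=
  le_ciInf fun _ => le_csSup (bdd_image hB _) ⟨T, ⟨hT, Sub.refl _, Agree.refl _ _⟩, rfl⟩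

include h0 in
/-- If the class is met near `T` then the hull is almost attained there. -/
theorem hull_attained {T : StrSet} {m : ℕ} (hne : (Near X T m).Nonempty) {ε : ℝ} (hε : 0 < ε) :
    ∃ T'' ∈ Near X T m, hull X F T - ε ≤ F T'' := by
  obtain ⟨_, ⟨T'', hT'', rfl⟩, h2⟩ := exists_lt_of_lt_csSup (hne.image F)
    (show hull X F T - ε < sSup (F '' Near X T m) by
      have := hull_le_sSup (X := X) h0 T m
      linarith)
  exact ⟨T'', hT'', h2.le⟩

end

theorem summable_half_succ : Summable fun i : ℕ => ((1 : ℝ) / 2) ^ (i + 1) := by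
  have h1 : Summable fun i : ℕ => ((1 : ℝ) / 2) ^ i :=
    summable_geometric_of_lt_one (by norm_num) (by norm_num)
  exact (summable_nat_add_iff 1).2 h1

theorem tsum_half_succ : ∑' i : ℕ, ((1 : ℝ) / 2) ^ (i + 1) = 1 := by
  have h1 : ∀ i : ℕ, ((1 : ℝ) / 2) ^ (i + 1) = (1 / 2) ^ i * (1 / 2) := fun i => pow_succ _ _
  simp_rw [h1]
  rw [tsum_mul_right, tsum_geometric_two]
  norm_num

theorem tsum_half_tail (N : ℕ) : ∑' i : ℕ, ((1 : ℝ) / 2) ^ (i + N + 1) = (1 / 2) ^ N := by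
  have h1 : ∀ i : ℕ, ((1 : ℝ) / 2) ^ (i + N + 1) = (1 / 2) ^ (i + 1) * (1 / 2) ^ N := fun i => by
    rw [← pow_add]; congr 1; ring
  simp_rw [h1]
  rw [tsum_mul_right, tsum_half_succ, one_mul]

theorem summable_of_bounds {g : ℕ → StrSet → ℝ} (h0 : ∀ i T, 0 ≤ g i T)
    (h1 : ∀ i T, g i T ≤ (1 / 2) ^ (i + 1)) (T : StrSet) : Summable fun i => g i T :=
  Summable.of_nonneg_of_le (fun i => h0 i T) (fun i => h1 i T) summable_half_succ

theorem tsum_usc {g : ℕ → StrSet → ℝ} (h0 : ∀ i T, 0 ≤ g i T)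
    (h1 : ∀ i T, g i T ≤ (1 / 2) ^ (i + 1))
    (husc : ∀ i T, ∀ ε > 0, ∃ m, ∀ T', Sub T' T → Agree m T T' → g i T' ≤ g i T + ε)
    (T : StrSet) {ε : ℝ} (hε : 0 < ε) :
    ∃ m, ∀ T', Sub T' T → Agree m T T' → ∑' i, g i T' ≤ ∑' i, g i T + ε := by
  have hs := summable_of_bounds h0 h1
  obtain ⟨N, hN⟩ := exists_pow_lt_of_lt_one (half_pos hε) (show (1 / 2 : ℝ) < 1 by norm_num)
  have hδ : 0 < ε / 2 / (N + 1) := by positivity
  choose m hm using fun i => husc i T (ε / 2 / (N + 1)) hδ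
  refine ⟨(Finset.range N).sup m, fun T' hS hA => ?_⟩
  have h2 : ∑ i ∈ Finset.range N, g i T' ≤
      ∑ i ∈ Finset.range N, (g i T + ε / 2 / (N + 1)) :=
    Finset.sum_le_sum fun i hi => hm i T' hS (hA.mono (Finset.le_sup hi))
  have h3 : ∑' i, g (i + N) T' ≤ (1 / 2) ^ N := by
    rw [← tsum_half_tail N]
    refine Summable.tsum_le_tsum (fun i => h1 (i + N) T') ?_ ?_
    · exact (summable_nat_add_iff (f := fun i => g i T') N).2 (hs T')
    · exact (summable_nat_add_iff (f := fun i : ℕ => ((1 : ℝ) / 2) ^ (i + 1)) N).2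
        summable_half_succ
  have h4 : ∑ i ∈ Finset.range N, g i T ≤ ∑' i, g i T :=
    (hs T).sum_le_tsum _ fun i _ => h0 i T
  have h5 := (hs T').sum_add_tsum_nat_add N
  rw [Finset.sum_add_distrib, Finset.sum_const, Finset.card_range, nsmul_eq_mul] at h2
  have h6 : (N : ℝ) * (ε / 2 / (N + 1)) ≤ ε / 2 := by
    rw [mul_div_assoc', div_le_iff₀ (by positivity)]
    nlinarith
  linarith

/-- Limits of fusion sequences. -/
theorem limit_tree (T : ℕ → StrSet) (m : ℕ → ℕ) (hm : ∀ i, m i < m (i + 1))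
    (hT : ∀ i, IsTree (T i)) (hS : ∀ i, Sub (T (i + 1)) (T i))
    (hA : ∀ i, Agree (m i) (T i) (T (i + 1))) {c : ℝ} (hc : ∀ i, c ≤ M (T i)) :
    ∃ Ts : StrSet, IsTree Ts ∧ (∀ i, Sub Ts (T i)) ∧ (∀ i, Agree (m i) (T i) Ts) ∧ c ≤ M Ts := by
  have hmono : Monotone m := monotone_nat_of_le_succ fun k => (hm k).le
  have hmk : ∀ k, k ≤ m k := by
    intro k
    induction k with
    | zero => exact Nat.zero_le _
    | succ k ih => exact lt_of_le_of_lt ih (hm k)
  have hSub : ∀ i j, i ≤ j → Sub (T j) (T i) := by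
    intro i j hij
    induction j, hij using Nat.le_induction with
    | base => exact Sub.refl _
    | succ j hij ih => exact (hS j).trans ih
  have hAg : ∀ i j, i ≤ j → Agree (m i) (T i) (T j) := by
    intro i j hij
    induction j, hij using Nat.le_induction with
    | base => exact Agree.refl _ _
    | succ j hij ih => exact ih.trans ((hA j).mono (hmono hij))
  set Ts : StrSet := fun σ => T (σ.length + 1) σ with hTs
  have hlim : ∀ (σ : List Bool) (j : ℕ), σ.length + 1 ≤ j → T j σ = Ts σ := by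
    intro σ j hj
    exact hAg _ _ hj σ (lt_of_lt_of_le (Nat.lt_succ_self _) (hmk _))
  have hTsA : ∀ i, Agree (m i) (T i) Ts := by
    intro i σ hσ
    rcases le_or_gt (σ.length + 1) i with h | h
    · exact (hlim σ i h).symm
    · exact hAg i _ h.le σ hσ
  have hTsS : ∀ i, Sub Ts (T i) := by
    intro i σ hσ
    rcases le_or_gt (σ.length + 1) i with h | h
    · rw [hlim σ i h]
      exact hσ
    · exact hSub i _ h.le σ hσ
  have hTsT : IsTree Ts := by
    intro σ τ hστ hτ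
    have h1 := hlim τ (τ.length + 1) le_rfl
    have h2 := hlim σ (τ.length + 1) (Nat.succ_le_succ hστ.length_le)
    rw [← h2]
    exact (hT (τ.length + 1)) σ τ hστ (h1.trans hτ)
  refine ⟨Ts, hTsT, hTsS, hTsA, ?_⟩
  refine ge_of_tendsto' (tendsto_lv hTsT) fun n => ?_
  rw [(hTsA (n + 1)).lv_eq (lt_of_lt_of_le (Nat.lt_succ_self n) (hmk _))]
  exact (hc (n + 1)).trans (M_le_lv _ _)

end Pool.Agent.PTree
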