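import Pool.Agent.PTree.Width

/-!
# A sequence of points which guard no perfect tree
-/

set_option autoImplicit false

namespace Pool.Agent.PTree

open MeasureTheory Filter Topology
open scoped Classical

section

variable {Ω : Type*} [MeasurableSpace Ω] (μ : Measure Ω) [IsProbabilityMeasure μ]

/-- If the sets `D l`, `l ∈ I`, have measure at least `β`, then one of them meets infinitely many
of the others in a set of measure at least `β'`. -/
theorem inter_lemma {D : ℕ → Set Ω} (hD : ∀ l, MeasurableSet (D l)) {I : Set ℕ} (hI : I.Infinite)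
    {β : ℝ} (hβ : 0 < β) (h : ∀ l ∈ I, β ≤ μ.real (D l)) :
    ∃ lam ∈ I, ∃ I' ⊆ I, I'.Infinite ∧ ∃ β' > 0, ∀ l ∈ I', β' ≤ μ.real (D lam ∩ D l) := by
  by_contra hcon
  push Not at hcon
  have hfin : ∀ lam ∈ I, ∀ δ > 0, {l ∈ I | δ ≤ μ.real (D lam ∩ D l)}.Finite := by
    intro lam hlam δ hδ
    by_contra hinf
    obtain ⟨l, hl, hl'⟩ := hcon lam hlam _ (Set.sep_subset _ _) hinf δ hδ
    exact absurd hl.2 (not_le.2 hl')
  obtain ⟨N, hN⟩ := exists_nat_gt (2 / β)
  have hN0 : (0 : ℝ) < N := lt_trans (by positivity) hN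
  have hδ : 0 < β / (2 * N) := by positivity
  have key : ∀ n : ℕ, n ≤ N → ∃ s : Finset ℕ, (↑s ⊆ I) ∧ s.card = n ∧
      n * (β / 2) ≤ μ.real (⋃ a ∈ s, D a) := by
    intro n
    induction n with
    | zero => intro _; exact ⟨∅, by simp, by simp, by simp⟩
    | succ n ih =>
      intro hn
      obtain ⟨s, hsI, hsc, hs⟩ := ih (by omega)
      have h1 : (⋃ a ∈ s, {l ∈ I | β / (2 * N) ≤ μ.real (D a ∩ D l)}).Finite :=
        Set.Finite.biUnion s.finite_toSet fun a ha => hfin a (hsI ha) _ hδ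
      obtain ⟨l, hlI, hl⟩ := (hI.sdiff (h1.union s.finite_toSet)).nonempty
      rw [Set.mem_union, not_or] at hl
      have hls : l ∉ s := fun hh => hl.2 (Finset.mem_coe.2 hh)
      have h2 : ∀ a ∈ s, μ.real (D a ∩ D l) ≤ β / (2 * N) := by
        intro a ha
        by_contra h3
        exact hl.1 (Set.mem_biUnion (Finset.mem_coe.2 ha) ⟨hlI, (not_le.1 h3).le⟩)
      refine ⟨insert l s, ?_, ?_, ?_⟩
      · intro a ha
        rcases Finset.mem_insert.1 (Finset.mem_coe.1 ha) with rfl | ha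
        · exact hlI
        · exact hsI ha
      · rw [Finset.card_insert_of_notMem hls, hsc]
      · rw [Finset.set_biUnion_insert, Set.union_comm]
        have h4 : μ.real ((⋃ a ∈ s, D a) ∪ D l) + μ.real ((⋃ a ∈ s, D a) ∩ D l) =
            μ.real (⋃ a ∈ s, D a) + μ.real (D l) := measureReal_union_add_inter (hD l) (measure_ne_top _ _) (measure_ne_top _ _)
        have h5 : μ.real ((⋃ a ∈ s, D a) ∩ D l) ≤ β / 2 := by
          rw [Set.iUnion₂_inter]
          refine (measureReal_biUnion_finset_le s _).trans ?_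
          refine (Finset.sum_le_sum h2).trans ?_
          rw [Finset.sum_const, hsc, nsmul_eq_mul]
          have h6 : (n : ℝ) ≤ N := by exact_mod_cast (by omega : n ≤ N)
          calc (n : ℝ) * (β / (2 * N)) ≤ N * (β / (2 * N)) :=
                mul_le_mul_of_nonneg_right h6 hδ.le
            _ = β / 2 := by field_simp
        have h7 := h l hlI
        push_cast
        linarith
  obtain ⟨s, -, -, hs⟩ := key N le_rfl
  have h8 : μ.real (⋃ a ∈ s, D a) ≤ 1 := measureReal_le_one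
  have h9 : 1 < (N : ℝ) * (β / 2) := by
    rw [div_lt_iff₀ hβ] at hN
    linarith
  linarith

/-- If the sets `D l`, `l ∈ I`, have measure at least `β`, then some point outside a given null
set is in infinitely many of them. -/
theorem limsup_lemma {D : ℕ → Set Ω} (hD : ∀ l, MeasurableSet (D l)) {I : Set ℕ}
    (hI : I.Infinite) {β : ℝ} (hβ : 0 < β) (h : ∀ l ∈ I, β ≤ μ.real (D l)) {N : Set Ω}
    (hN : μ N = 0) : ∃ ω, ω ∉ N ∧ {l ∈ I | ω ∈ D l}.Infinite := by
  set V : ℕ → Set Ω := fun m => ⋃ l ∈ {l | l ∈ I ∧ m ≤ l}, D l with hV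
  have hVm : ∀ m, MeasurableSet (V m) := fun m =>
    MeasurableSet.biUnion (Set.to_countable _) fun l _ => hD l
  have hVa : Antitone V := by
    intro m n hmn
    refine Set.biUnion_subset_biUnion_left ?_
    intro l hl
    exact ⟨hl.1, hmn.trans hl.2⟩
  have hVβ : ∀ m, ENNReal.ofReal β ≤ μ (V m) := by
    intro m
    obtain ⟨l, hl, hml⟩ := hI.exists_gt m
    have h1 : D l ⊆ V m := Set.subset_biUnion_of_mem (u := D) (show l ∈ {l | l ∈ I ∧ m ≤ l} from
      ⟨hl, hml.le⟩)
    calc ENNReal.ofReal β ≤ ENNReal.ofReal (μ.real (D l)) := ENNReal.ofReal_le_ofReal (h l hl)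
      _ = μ (D l) := by rw [Measure.real, ENNReal.ofReal_toReal (measure_ne_top _ _)]
      _ ≤ μ (V m) := measure_mono h1
  have h2 : ENNReal.ofReal β ≤ μ (⋂ m, V m) := by
    have h3 : Tendsto (fun n => μ (V n)) atTop (𝓝 (μ (⋂ n, V n))) :=
      tendsto_measure_iInter_atTop (fun n => (hVm n).nullMeasurableSet) hVa
        ⟨0, measure_ne_top _ _⟩
    exact ge_of_tendsto' h3 hVβ
  have h4 : ((⋂ m, V m) \ N).Nonempty := by
    by_contra h5
    rw [Set.not_nonempty_iff_eq_empty, Set.sdiff_eq_empty] at h5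
    have h6 := h2.trans ((measure_mono h5).trans hN.le)
    rw [nonpos_iff_eq_zero, ENNReal.ofReal_eq_zero] at h6
    linarith
  obtain ⟨ω, hω, hωN⟩ := h4
  refine ⟨ω, hωN, ?_⟩
  rw [Set.infinite_iff_exists_gt]
  intro m
  have h7 := Set.mem_iInter.1 hω (m + 1)
  simp only [hV, Set.mem_iUnion, exists_prop] at h7
  obtain ⟨l, hl, hωl⟩ := h7
  exact ⟨l, ⟨hl.1, hωl⟩, by have := hl.2; omega⟩

variable (E : Set Ω) (A : List Bool → Set Ω) (K : ℕ)

/-- The nodes of level `l` guarded by `ω`. -/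
noncomputable def Gd (l : ℕ) (ω : Ω) : Finset (List Bool) := (strs l).filter fun τ => ω ∈ A τ

omit [MeasurableSpace Ω] in
theorem mem_Gd {l : ℕ} {ω : Ω} {τ : List Bool} : τ ∈ Gd A l ω ↔ τ.length = l ∧ ω ∈ A τ := by
  simp [Gd]

theorem measurableSet_Gd (hA : ∀ τ, MeasurableSet (A τ)) (l : ℕ) (p : Finset (List Bool) → Prop) :
    MeasurableSet {ω | p (Gd A l ω)} := by
  have h1 : {ω | p (Gd A l ω)} = ⋃ F ∈ (strs l).powerset.filter p, {ω | Gd A l ω = F} := by
    ext ω
    simp only [Set.mem_ofPred_eq, Finset.mem_filter, Finset.mem_powerset, Set.mem_iUnion,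
      exists_prop]
    constructor
    · intro h
      exact ⟨_, ⟨Finset.filter_subset _ _, h⟩, rfl⟩
    · rintro ⟨F, ⟨-, h⟩, rfl⟩
      exact h
  rw [h1]
  refine Finset.measurableSet_biUnion _ fun F hF => ?_
  have hF' : F ⊆ strs l := Finset.mem_powerset.1 (Finset.mem_filter.1 hF).1
  have h2 : {ω | Gd A l ω = F} = ⋂ τ ∈ strs l, (if τ ∈ F then A τ else (A τ)ᶜ) := by
    ext ω
    simp only [Set.mem_ofPred_eq, Set.mem_iInter]
    constructor
    · rintro rfl τ hτ
      by_cases h : ω ∈ A τ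
      · rw [if_pos (mem_Gd A |>.2 ⟨mem_strs.1 hτ, h⟩)]
        exact h
      · rw [if_neg (fun h' => h (mem_Gd A |>.1 h').2)]
        exact h
    · intro h
      ext τ
      rw [mem_Gd]
      constructor
      · rintro ⟨h3, h4⟩
        by_contra h5
        have h6 := h τ (mem_strs.2 h3)
        rw [if_neg h5] at h6
        exact h6 h4
      · intro h3
        have h4 := hF' h3
        have h6 := h τ h4
        rw [if_pos h3] at h6
        exact ⟨mem_strs.1 h4, h6⟩
  rw [h2]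
  refine Finset.measurableSet_biInter _ fun τ _ => ?_
  split_ifs
  · exact hA τ
  · exact (hA τ).compl

/-- The points of `E` which guard at most `K` nodes of level `l`, all of them above nodes in the
sets `P l0`, `l0 < k`. -/
def Bs (P : ℕ → Finset (List Bool)) (k l : ℕ) : Set Ω :=
  {ω | ω ∈ E ∧ (Gd A l ω).card ≤ K ∧ ∀ l0 < k, ∀ τ ∈ Gd A l ω, τ.take l0 ∈ P l0}

theorem measurableSet_Bs (hE : MeasurableSet E) (hA : ∀ τ, MeasurableSet (A τ))
    (P : ℕ → Finset (List Bool)) (k l : ℕ) : MeasurableSet (Bs E A K P k l) := by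
  have h1 : Bs E A K P k l =
      E ∩ {ω | (Gd A l ω).card ≤ K ∧ ∀ l0 < k, ∀ τ ∈ Gd A l ω, τ.take l0 ∈ P l0} := by
    ext ω; rfl
  rw [h1]
  exact hE.inter (measurableSet_Gd A hA l
    fun F => F.card ≤ K ∧ ∀ l0 < k, ∀ τ ∈ F, τ.take l0 ∈ P l0)

/-- Few points guard many nodes. -/
theorem markov (hA : ∀ τ, MeasurableSet (A τ)) {C : ℝ} {L0 : ℕ}
    (hC : ∀ τ : List Bool, L0 ≤ τ.length → μ.real (E ∩ A τ) ≤ C * (1 / 2) ^ τ.length) {l : ℕ}
    (hl : L0 ≤ l) : (K + 1) * μ.real {ω | ω ∈ E ∧ ¬ (Gd A l ω).card ≤ K} ≤ C := by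
  have hm : MeasurableSet {ω | (K + 1 : ℕ) ≤ (Gd A l ω).card} :=
    measurableSet_Gd A hA l fun F => K + 1 ≤ F.card
  have h1 : ∫⁻ ω in E, ((Gd A l ω).card : ENNReal) ∂μ = ∑ τ ∈ strs l, μ (E ∩ A τ) := by
    have h2 : ∀ ω, ((Gd A l ω).card : ENNReal) = ∑ τ ∈ strs l, (A τ).indicator 1 ω := by
      intro ω
      rw [Gd, Finset.card_filter]
      push_cast
      refine Finset.sum_congr rfl fun τ _ => ?_
      by_cases h : ω ∈ A τ <;> simp [h]
    simp_rw [h2]
    rw [lintegral_finsetSum _ fun τ _ => measurable_one.indicator (hA τ)]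
    refine Finset.sum_congr rfl fun τ _ => ?_
    rw [lintegral_indicator_one (hA τ), Measure.restrict_apply (hA τ), Set.inter_comm]
  have h3 : ((K + 1 : ℕ) : ENNReal) * μ {ω | ω ∈ E ∧ ¬ (Gd A l ω).card ≤ K} ≤
      ∑ τ ∈ strs l, μ (E ∩ A τ) := by
    rw [← h1]
    have h4 : {ω | ω ∈ E ∧ ¬ (Gd A l ω).card ≤ K} ⊆
        {ω | (K + 1 : ℕ) ≤ (Gd A l ω).card} ∩ E := by
      rintro ω ⟨h5, h6⟩
      exact ⟨by simpa [Nat.succ_le_iff] using h6, h5⟩
    have h7 : {ω | (K + 1 : ℕ) ≤ (Gd A l ω).card} ⊆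
        {ω | ((K + 1 : ℕ) : ENNReal) ≤ ((Gd A l ω).card : ENNReal)} := by
      intro ω hω
      have h8 : K + 1 ≤ (Gd A l ω).card := hω
      change ((K + 1 : ℕ) : ENNReal) ≤ ((Gd A l ω).card : ENNReal)
      exact_mod_cast h8
    calc ((K + 1 : ℕ) : ENNReal) * μ {ω | ω ∈ E ∧ ¬ (Gd A l ω).card ≤ K} ≤
          ((K + 1 : ℕ) : ENNReal) * (μ.restrict E) {ω | (K + 1 : ℕ) ≤ (Gd A l ω).card} := by
          rw [Measure.restrict_apply hm]
          gcongr
      _ ≤ ((K + 1 : ℕ) : ENNReal) * (μ.restrict E)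
            {ω | ((K + 1 : ℕ) : ENNReal) ≤ ((Gd A l ω).card : ENNReal)} := by
          gcongr
      _ ≤ _ := mul_meas_ge_le_lintegral₀ (by
          have h8 : Measurable fun ω => ((Gd A l ω).card : ENNReal) := by
            refine measurable_of_Ici fun a => ?_
            exact measurableSet_Gd A hA l fun F => a ≤ (F.card : ENNReal)
          exact h8.aemeasurable) _
  have h9 : ∑ τ ∈ strs l, μ.real (E ∩ A τ) ≤ C := by
    have h10 : ∀ τ ∈ strs l, μ.real (E ∩ A τ) ≤ C * (1 / 2) ^ l := by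
      intro τ hτ
      have h11 := mem_strs.1 hτ
      have h12 := hC τ (by omega)
      rwa [h11] at h12
    refine (Finset.sum_le_sum h10).trans ?_
    rw [Finset.sum_const, card_strs, nsmul_eq_mul]
    push_cast
    rw [mul_left_comm, ← mul_pow]
    norm_num
  have h13 := ENNReal.toReal_mono (by
    exact (ENNReal.sum_lt_top.2 fun τ _ => measure_lt_top _ _).ne) h3
  rw [ENNReal.toReal_mul, ENNReal.toReal_sum fun τ _ => measure_ne_top _ _] at h13
  refine le_trans ?_ h9
  refine le_trans (le_of_eq ?_) h13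
  rw [ENNReal.toReal_natCast]
  push_cast
  rfl

end

end Pool.Agent.PTree
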